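import Pool.Agent.H337_stamp.SAll
import Pool.Agent.H337_stamp.Cert.K0
import Pool.Agent.H337_stamp.Cert.K1
import Pool.Agent.H337_stamp.Cert.K2
import Pool.Agent.H337_stamp.Cert.K3
import Pool.Agent.H337_stamp.Cert.K4
import Pool.Agent.H337_stamp.Cert.K5
import Pool.Agent.H337_stamp.Cert.K6
import Pool.Agent.H337_stamp.Cert.K7
import Pool.Agent.H337_stamp.Cert.K8
import Pool.Agent.H337_stamp.Cert.K9
import Pool.Agent.H337_stamp.Cert.K10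
import Pool.Agent.H337_stamp.Cert.K11
import Pool.Agent.H337_stamp.Cert.K12
import Pool.Agent.H337_stamp.Cert.K13
import Pool.Agent.H337_stamp.Cert.K14
import Pool.Agent.H337_stamp.Cert.K15
import Pool.Agent.H337_stamp.Cert.K16
import Pool.Agent.H337_stamp.Cert.K17
import Pool.Agent.H337_stamp.Cert.K18
import Pool.Agent.H337_stamp.Cert.K19
import Pool.Agent.H337_stamp.Cert.K20
import Pool.Agent.H337_stamp.Cert.K21
import Pool.Agent.H337_stamp.Cert.K22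
import Pool.Agent.H337_stamp.Cert.K23
import Pool.Agent.H337_stamp.Cert.K24
import Pool.Agent.H337_stamp.Cert.K25
import Pool.Agent.H337_stamp.Cert.K26
import Pool.Agent.H337_stamp.Cert.K27
import Pool.Agent.H337_stamp.Cert.K28
import Pool.Agent.H337_stamp.Cert.K29
import Pool.Agent.H337_stamp.Cert.K30

/-! The states are good, from the last one to the root. -/

namespace Pool.Agent.H337_stamp.Check

theorem g1390 : ∀ j, 1390 ≤ j → st j ≠ 0 → Good (st j) := tab_out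
theorem g1389 : ∀ j, 1389 ≤ j → st j ≠ 0 → Good (st j) := bk k1389 g1390
theorem g1388 : ∀ j, 1388 ≤ j → st j ≠ 0 → Good (st j) := bk k1388 g1389
theorem g1387 : ∀ j, 1387 ≤ j → st j ≠ 0 → Good (st j) := bk k1387 g1388
theorem g1386 : ∀ j, 1386 ≤ j → st j ≠ 0 → Good (st j) := bk k1386 g1387
theorem g1385 : ∀ j, 1385 ≤ j → st j ≠ 0 → Good (st j) := bk k1385 g1386
theorem g1384 : ∀ j, 1384 ≤ j → st j ≠ 0 → Good (st j) := bk k1384 g1385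
theorem g1383 : ∀ j, 1383 ≤ j → st j ≠ 0 → Good (st j) := bk k1383 g1384
theorem g1382 : ∀ j, 1382 ≤ j → st j ≠ 0 → Good (st j) := bk k1382 g1383
theorem g1381 : ∀ j, 1381 ≤ j → st j ≠ 0 → Good (st j) := bk k1381 g1382
theorem g1380 : ∀ j, 1380 ≤ j → st j ≠ 0 → Good (st j) := bk k1380 g1381
theorem g1379 : ∀ j, 1379 ≤ j → st j ≠ 0 → Good (st j) := bk k1379 g1380
theorem g1378 : ∀ j, 1378 ≤ j → st j ≠ 0 → Good (st j) := bk k1378 g1379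
theorem g1377 : ∀ j, 1377 ≤ j → st j ≠ 0 → Good (st j) := bk k1377 g1378
theorem g1376 : ∀ j, 1376 ≤ j → st j ≠ 0 → Good (st j) := bk k1376 g1377
theorem g1375 : ∀ j, 1375 ≤ j → st j ≠ 0 → Good (st j) := bk k1375 g1376
theorem g1374 : ∀ j, 1374 ≤ j → st j ≠ 0 → Good (st j) := bk k1374 g1375
theorem g1373 : ∀ j, 1373 ≤ j → st j ≠ 0 → Good (st j) := bk k1373 g1374
theorem g1372 : ∀ j, 1372 ≤ j → st j ≠ 0 → Good (st j) := bk k1372 g1373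
theorem g1371 : ∀ j, 1371 ≤ j → st j ≠ 0 → Good (st j) := bk k1371 g1372
theorem g1370 : ∀ j, 1370 ≤ j → st j ≠ 0 → Good (st j) := bk k1370 g1371
theorem g1369 : ∀ j, 1369 ≤ j → st j ≠ 0 → Good (st j) := bk k1369 g1370
theorem g1368 : ∀ j, 1368 ≤ j → st j ≠ 0 → Good (st j) := bk k1368 g1369
theorem g1367 : ∀ j, 1367 ≤ j → st j ≠ 0 → Good (st j) := bk k1367 g1368
theorem g1366 : ∀ j, 1366 ≤ j → st j ≠ 0 → Good (st j) := bk k1366 g1367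
theorem g1365 : ∀ j, 1365 ≤ j → st j ≠ 0 → Good (st j) := bk k1365 g1366
theorem g1364 : ∀ j, 1364 ≤ j → st j ≠ 0 → Good (st j) := bk k1364 g1365
theorem g1363 : ∀ j, 1363 ≤ j → st j ≠ 0 → Good (st j) := bk k1363 g1364
theorem g1362 : ∀ j, 1362 ≤ j → st j ≠ 0 → Good (st j) := bk k1362 g1363
theorem g1361 : ∀ j, 1361 ≤ j → st j ≠ 0 → Good (st j) := bk k1361 g1362
theorem g1360 : ∀ j, 1360 ≤ j → st j ≠ 0 → Good (st j) := bk k1360 g1361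
theorem g1359 : ∀ j, 1359 ≤ j → st j ≠ 0 → Good (st j) := bk k1359 g1360
theorem g1358 : ∀ j, 1358 ≤ j → st j ≠ 0 → Good (st j) := bk k1358 g1359
theorem g1357 : ∀ j, 1357 ≤ j → st j ≠ 0 → Good (st j) := bk k1357 g1358
theorem g1356 : ∀ j, 1356 ≤ j → st j ≠ 0 → Good (st j) := bk k1356 g1357
theorem g1355 : ∀ j, 1355 ≤ j → st j ≠ 0 → Good (st j) := bk k1355 g1356
theorem g1354 : ∀ j, 1354 ≤ j → st j ≠ 0 → Good (st j) := bk k1354 g1355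
theorem g1353 : ∀ j, 1353 ≤ j → st j ≠ 0 → Good (st j) := bk k1353 g1354
theorem g1352 : ∀ j, 1352 ≤ j → st j ≠ 0 → Good (st j) := bk k1352 g1353
theorem g1351 : ∀ j, 1351 ≤ j → st j ≠ 0 → Good (st j) := bk k1351 g1352
theorem g1350 : ∀ j, 1350 ≤ j → st j ≠ 0 → Good (st j) := bk k1350 g1351
theorem g1349 : ∀ j, 1349 ≤ j → st j ≠ 0 → Good (st j) := bk k1349 g1350
theorem g1348 : ∀ j, 1348 ≤ j → st j ≠ 0 → Good (st j) := bk k1348 g1349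
theorem g1347 : ∀ j, 1347 ≤ j → st j ≠ 0 → Good (st j) := bk k1347 g1348
theorem g1346 : ∀ j, 1346 ≤ j → st j ≠ 0 → Good (st j) := bk k1346 g1347
theorem g1345 : ∀ j, 1345 ≤ j → st j ≠ 0 → Good (st j) := bk k1345 g1346
theorem g1344 : ∀ j, 1344 ≤ j → st j ≠ 0 → Good (st j) := bk k1344 g1345
theorem g1343 : ∀ j, 1343 ≤ j → st j ≠ 0 → Good (st j) := bk k1343 g1344
theorem g1342 : ∀ j, 1342 ≤ j → st j ≠ 0 → Good (st j) := bk k1342 g1343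
theorem g1341 : ∀ j, 1341 ≤ j → st j ≠ 0 → Good (st j) := bk k1341 g1342
theorem g1340 : ∀ j, 1340 ≤ j → st j ≠ 0 → Good (st j) := bk k1340 g1341
theorem g1339 : ∀ j, 1339 ≤ j → st j ≠ 0 → Good (st j) := bk k1339 g1340
theorem g1338 : ∀ j, 1338 ≤ j → st j ≠ 0 → Good (st j) := bk k1338 g1339
theorem g1337 : ∀ j, 1337 ≤ j → st j ≠ 0 → Good (st j) := bk k1337 g1338
theorem g1336 : ∀ j, 1336 ≤ j → st j ≠ 0 → Good (st j) := bk k1336 g1337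
theorem g1335 : ∀ j, 1335 ≤ j → st j ≠ 0 → Good (st j) := bk k1335 g1336
theorem g1334 : ∀ j, 1334 ≤ j → st j ≠ 0 → Good (st j) := bk k1334 g1335
theorem g1333 : ∀ j, 1333 ≤ j → st j ≠ 0 → Good (st j) := bk k1333 g1334
theorem g1332 : ∀ j, 1332 ≤ j → st j ≠ 0 → Good (st j) := bk k1332 g1333
theorem g1331 : ∀ j, 1331 ≤ j → st j ≠ 0 → Good (st j) := bk k1331 g1332
theorem g1330 : ∀ j, 1330 ≤ j → st j ≠ 0 → Good (st j) := bk k1330 g1331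
theorem g1329 : ∀ j, 1329 ≤ j → st j ≠ 0 → Good (st j) := bk k1329 g1330
theorem g1328 : ∀ j, 1328 ≤ j → st j ≠ 0 → Good (st j) := bk k1328 g1329
theorem g1327 : ∀ j, 1327 ≤ j → st j ≠ 0 → Good (st j) := bk k1327 g1328
theorem g1326 : ∀ j, 1326 ≤ j → st j ≠ 0 → Good (st j) := bk k1326 g1327
theorem g1325 : ∀ j, 1325 ≤ j → st j ≠ 0 → Good (st j) := bk k1325 g1326
theorem g1324 : ∀ j, 1324 ≤ j → st j ≠ 0 → Good (st j) := bk k1324 g1325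
theorem g1323 : ∀ j, 1323 ≤ j → st j ≠ 0 → Good (st j) := bk k1323 g1324
theorem g1322 : ∀ j, 1322 ≤ j → st j ≠ 0 → Good (st j) := bk k1322 g1323
theorem g1321 : ∀ j, 1321 ≤ j → st j ≠ 0 → Good (st j) := bk k1321 g1322
theorem g1320 : ∀ j, 1320 ≤ j → st j ≠ 0 → Good (st j) := bk k1320 g1321
theorem g1319 : ∀ j, 1319 ≤ j → st j ≠ 0 → Good (st j) := bk k1319 g1320
theorem g1318 : ∀ j, 1318 ≤ j → st j ≠ 0 → Good (st j) := bk k1318 g1319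
theorem g1317 : ∀ j, 1317 ≤ j → st j ≠ 0 → Good (st j) := bk k1317 g1318
theorem g1316 : ∀ j, 1316 ≤ j → st j ≠ 0 → Good (st j) := bk k1316 g1317
theorem g1315 : ∀ j, 1315 ≤ j → st j ≠ 0 → Good (st j) := bk k1315 g1316
theorem g1314 : ∀ j, 1314 ≤ j → st j ≠ 0 → Good (st j) := bk k1314 g1315
theorem g1313 : ∀ j, 1313 ≤ j → st j ≠ 0 → Good (st j) := bk k1313 g1314
theorem g1312 : ∀ j, 1312 ≤ j → st j ≠ 0 → Good (st j) := bk k1312 g1313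
theorem g1311 : ∀ j, 1311 ≤ j → st j ≠ 0 → Good (st j) := bk k1311 g1312
theorem g1310 : ∀ j, 1310 ≤ j → st j ≠ 0 → Good (st j) := bk k1310 g1311
theorem g1309 : ∀ j, 1309 ≤ j → st j ≠ 0 → Good (st j) := bk k1309 g1310
theorem g1308 : ∀ j, 1308 ≤ j → st j ≠ 0 → Good (st j) := bk k1308 g1309
theorem g1307 : ∀ j, 1307 ≤ j → st j ≠ 0 → Good (st j) := bk k1307 g1308
theorem g1306 : ∀ j, 1306 ≤ j → st j ≠ 0 → Good (st j) := bk k1306 g1307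
theorem g1305 : ∀ j, 1305 ≤ j → st j ≠ 0 → Good (st j) := bk k1305 g1306
theorem g1304 : ∀ j, 1304 ≤ j → st j ≠ 0 → Good (st j) := bk k1304 g1305
theorem g1303 : ∀ j, 1303 ≤ j → st j ≠ 0 → Good (st j) := bk k1303 g1304
theorem g1302 : ∀ j, 1302 ≤ j → st j ≠ 0 → Good (st j) := bk k1302 g1303
theorem g1301 : ∀ j, 1301 ≤ j → st j ≠ 0 → Good (st j) := bk k1301 g1302
theorem g1300 : ∀ j, 1300 ≤ j → st j ≠ 0 → Good (st j) := bk k1300 g1301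
theorem g1299 : ∀ j, 1299 ≤ j → st j ≠ 0 → Good (st j) := bk k1299 g1300
theorem g1298 : ∀ j, 1298 ≤ j → st j ≠ 0 → Good (st j) := bk k1298 g1299
theorem g1297 : ∀ j, 1297 ≤ j → st j ≠ 0 → Good (st j) := bk k1297 g1298
theorem g1296 : ∀ j, 1296 ≤ j → st j ≠ 0 → Good (st j) := bk k1296 g1297
theorem g1295 : ∀ j, 1295 ≤ j → st j ≠ 0 → Good (st j) := bk k1295 g1296
theorem g1294 : ∀ j, 1294 ≤ j → st j ≠ 0 → Good (st j) := bk k1294 g1295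
theorem g1293 : ∀ j, 1293 ≤ j → st j ≠ 0 → Good (st j) := bk k1293 g1294
theorem g1292 : ∀ j, 1292 ≤ j → st j ≠ 0 → Good (st j) := bk k1292 g1293
theorem g1291 : ∀ j, 1291 ≤ j → st j ≠ 0 → Good (st j) := bk k1291 g1292
theorem g1290 : ∀ j, 1290 ≤ j → st j ≠ 0 → Good (st j) := bk k1290 g1291
theorem g1289 : ∀ j, 1289 ≤ j → st j ≠ 0 → Good (st j) := bk k1289 g1290
theorem g1288 : ∀ j, 1288 ≤ j → st j ≠ 0 → Good (st j) := bk k1288 g1289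
theorem g1287 : ∀ j, 1287 ≤ j → st j ≠ 0 → Good (st j) := bk k1287 g1288
theorem g1286 : ∀ j, 1286 ≤ j → st j ≠ 0 → Good (st j) := bk k1286 g1287
theorem g1285 : ∀ j, 1285 ≤ j → st j ≠ 0 → Good (st j) := bk k1285 g1286
theorem g1284 : ∀ j, 1284 ≤ j → st j ≠ 0 → Good (st j) := bk k1284 g1285
theorem g1283 : ∀ j, 1283 ≤ j → st j ≠ 0 → Good (st j) := bk k1283 g1284
theorem g1282 : ∀ j, 1282 ≤ j → st j ≠ 0 → Good (st j) := bk k1282 g1283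
theorem g1281 : ∀ j, 1281 ≤ j → st j ≠ 0 → Good (st j) := bk k1281 g1282
theorem g1280 : ∀ j, 1280 ≤ j → st j ≠ 0 → Good (st j) := bk k1280 g1281
theorem g1279 : ∀ j, 1279 ≤ j → st j ≠ 0 → Good (st j) := bk k1279 g1280
theorem g1278 : ∀ j, 1278 ≤ j → st j ≠ 0 → Good (st j) := bk k1278 g1279
theorem g1277 : ∀ j, 1277 ≤ j → st j ≠ 0 → Good (st j) := bk k1277 g1278
theorem g1276 : ∀ j, 1276 ≤ j → st j ≠ 0 → Good (st j) := bk k1276 g1277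
theorem g1275 : ∀ j, 1275 ≤ j → st j ≠ 0 → Good (st j) := bk k1275 g1276
theorem g1274 : ∀ j, 1274 ≤ j → st j ≠ 0 → Good (st j) := bk k1274 g1275
theorem g1273 : ∀ j, 1273 ≤ j → st j ≠ 0 → Good (st j) := bk k1273 g1274
theorem g1272 : ∀ j, 1272 ≤ j → st j ≠ 0 → Good (st j) := bk k1272 g1273
theorem g1271 : ∀ j, 1271 ≤ j → st j ≠ 0 → Good (st j) := bk k1271 g1272
theorem g1270 : ∀ j, 1270 ≤ j → st j ≠ 0 → Good (st j) := bk k1270 g1271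
theorem g1269 : ∀ j, 1269 ≤ j → st j ≠ 0 → Good (st j) := bk k1269 g1270
theorem g1268 : ∀ j, 1268 ≤ j → st j ≠ 0 → Good (st j) := bk k1268 g1269
theorem g1267 : ∀ j, 1267 ≤ j → st j ≠ 0 → Good (st j) := bk k1267 g1268
theorem g1266 : ∀ j, 1266 ≤ j → st j ≠ 0 → Good (st j) := bk k1266 g1267
theorem g1265 : ∀ j, 1265 ≤ j → st j ≠ 0 → Good (st j) := bk k1265 g1266
theorem g1264 : ∀ j, 1264 ≤ j → st j ≠ 0 → Good (st j) := bk k1264 g1265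
theorem g1263 : ∀ j, 1263 ≤ j → st j ≠ 0 → Good (st j) := bk k1263 g1264
theorem g1262 : ∀ j, 1262 ≤ j → st j ≠ 0 → Good (st j) := bk k1262 g1263
theorem g1261 : ∀ j, 1261 ≤ j → st j ≠ 0 → Good (st j) := bk k1261 g1262
theorem g1260 : ∀ j, 1260 ≤ j → st j ≠ 0 → Good (st j) := bk k1260 g1261
theorem g1259 : ∀ j, 1259 ≤ j → st j ≠ 0 → Good (st j) := bk k1259 g1260
theorem g1258 : ∀ j, 1258 ≤ j → st j ≠ 0 → Good (st j) := bk k1258 g1259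
theorem g1257 : ∀ j, 1257 ≤ j → st j ≠ 0 → Good (st j) := bk k1257 g1258
theorem g1256 : ∀ j, 1256 ≤ j → st j ≠ 0 → Good (st j) := bk k1256 g1257
theorem g1255 : ∀ j, 1255 ≤ j → st j ≠ 0 → Good (st j) := bk k1255 g1256
theorem g1254 : ∀ j, 1254 ≤ j → st j ≠ 0 → Good (st j) := bk k1254 g1255
theorem g1253 : ∀ j, 1253 ≤ j → st j ≠ 0 → Good (st j) := bk k1253 g1254
theorem g1252 : ∀ j, 1252 ≤ j → st j ≠ 0 → Good (st j) := bk k1252 g1253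
theorem g1251 : ∀ j, 1251 ≤ j → st j ≠ 0 → Good (st j) := bk k1251 g1252
theorem g1250 : ∀ j, 1250 ≤ j → st j ≠ 0 → Good (st j) := bk k1250 g1251
theorem g1249 : ∀ j, 1249 ≤ j → st j ≠ 0 → Good (st j) := bk k1249 g1250
theorem g1248 : ∀ j, 1248 ≤ j → st j ≠ 0 → Good (st j) := bk k1248 g1249
theorem g1247 : ∀ j, 1247 ≤ j → st j ≠ 0 → Good (st j) := bk k1247 g1248
theorem g1246 : ∀ j, 1246 ≤ j → st j ≠ 0 → Good (st j) := bk k1246 g1247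
theorem g1245 : ∀ j, 1245 ≤ j → st j ≠ 0 → Good (st j) := bk k1245 g1246
theorem g1244 : ∀ j, 1244 ≤ j → st j ≠ 0 → Good (st j) := bk k1244 g1245
theorem g1243 : ∀ j, 1243 ≤ j → st j ≠ 0 → Good (st j) := bk k1243 g1244
theorem g1242 : ∀ j, 1242 ≤ j → st j ≠ 0 → Good (st j) := bk k1242 g1243
theorem g1241 : ∀ j, 1241 ≤ j → st j ≠ 0 → Good (st j) := bk k1241 g1242
theorem g1240 : ∀ j, 1240 ≤ j → st j ≠ 0 → Good (st j) := bk k1240 g1241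
theorem g1239 : ∀ j, 1239 ≤ j → st j ≠ 0 → Good (st j) := bk k1239 g1240
theorem g1238 : ∀ j, 1238 ≤ j → st j ≠ 0 → Good (st j) := bk k1238 g1239
theorem g1237 : ∀ j, 1237 ≤ j → st j ≠ 0 → Good (st j) := bk k1237 g1238
theorem g1236 : ∀ j, 1236 ≤ j → st j ≠ 0 → Good (st j) := bk k1236 g1237
theorem g1235 : ∀ j, 1235 ≤ j → st j ≠ 0 → Good (st j) := bk k1235 g1236
theorem g1234 : ∀ j, 1234 ≤ j → st j ≠ 0 → Good (st j) := bk k1234 g1235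
theorem g1233 : ∀ j, 1233 ≤ j → st j ≠ 0 → Good (st j) := bk k1233 g1234
theorem g1232 : ∀ j, 1232 ≤ j → st j ≠ 0 → Good (st j) := bk k1232 g1233
theorem g1231 : ∀ j, 1231 ≤ j → st j ≠ 0 → Good (st j) := bk k1231 g1232
theorem g1230 : ∀ j, 1230 ≤ j → st j ≠ 0 → Good (st j) := bk k1230 g1231
theorem g1229 : ∀ j, 1229 ≤ j → st j ≠ 0 → Good (st j) := bk k1229 g1230
theorem g1228 : ∀ j, 1228 ≤ j → st j ≠ 0 → Good (st j) := bk k1228 g1229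
theorem g1227 : ∀ j, 1227 ≤ j → st j ≠ 0 → Good (st j) := bk k1227 g1228
theorem g1226 : ∀ j, 1226 ≤ j → st j ≠ 0 → Good (st j) := bk k1226 g1227
theorem g1225 : ∀ j, 1225 ≤ j → st j ≠ 0 → Good (st j) := bk k1225 g1226
theorem g1224 : ∀ j, 1224 ≤ j → st j ≠ 0 → Good (st j) := bk k1224 g1225
theorem g1223 : ∀ j, 1223 ≤ j → st j ≠ 0 → Good (st j) := bk k1223 g1224
theorem g1222 : ∀ j, 1222 ≤ j → st j ≠ 0 → Good (st j) := bk k1222 g1223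
theorem g1221 : ∀ j, 1221 ≤ j → st j ≠ 0 → Good (st j) := bk k1221 g1222
theorem g1220 : ∀ j, 1220 ≤ j → st j ≠ 0 → Good (st j) := bk k1220 g1221
theorem g1219 : ∀ j, 1219 ≤ j → st j ≠ 0 → Good (st j) := bk k1219 g1220
theorem g1218 : ∀ j, 1218 ≤ j → st j ≠ 0 → Good (st j) := bk k1218 g1219
theorem g1217 : ∀ j, 1217 ≤ j → st j ≠ 0 → Good (st j) := bk k1217 g1218
theorem g1216 : ∀ j, 1216 ≤ j → st j ≠ 0 → Good (st j) := bk k1216 g1217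
theorem g1215 : ∀ j, 1215 ≤ j → st j ≠ 0 → Good (st j) := bk k1215 g1216
theorem g1214 : ∀ j, 1214 ≤ j → st j ≠ 0 → Good (st j) := bk k1214 g1215
theorem g1213 : ∀ j, 1213 ≤ j → st j ≠ 0 → Good (st j) := bk k1213 g1214
theorem g1212 : ∀ j, 1212 ≤ j → st j ≠ 0 → Good (st j) := bk k1212 g1213
theorem g1211 : ∀ j, 1211 ≤ j → st j ≠ 0 → Good (st j) := bk k1211 g1212
theorem g1210 : ∀ j, 1210 ≤ j → st j ≠ 0 → Good (st j) := bk k1210 g1211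
theorem g1209 : ∀ j, 1209 ≤ j → st j ≠ 0 → Good (st j) := bk k1209 g1210
theorem g1208 : ∀ j, 1208 ≤ j → st j ≠ 0 → Good (st j) := bk k1208 g1209
theorem g1207 : ∀ j, 1207 ≤ j → st j ≠ 0 → Good (st j) := bk k1207 g1208
theorem g1206 : ∀ j, 1206 ≤ j → st j ≠ 0 → Good (st j) := bk k1206 g1207
theorem g1205 : ∀ j, 1205 ≤ j → st j ≠ 0 → Good (st j) := bk k1205 g1206
theorem g1204 : ∀ j, 1204 ≤ j → st j ≠ 0 → Good (st j) := bk k1204 g1205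
theorem g1203 : ∀ j, 1203 ≤ j → st j ≠ 0 → Good (st j) := bk k1203 g1204
theorem g1202 : ∀ j, 1202 ≤ j → st j ≠ 0 → Good (st j) := bk k1202 g1203
theorem g1201 : ∀ j, 1201 ≤ j → st j ≠ 0 → Good (st j) := bk k1201 g1202
theorem g1200 : ∀ j, 1200 ≤ j → st j ≠ 0 → Good (st j) := bk k1200 g1201
theorem g1199 : ∀ j, 1199 ≤ j → st j ≠ 0 → Good (st j) := bk k1199 g1200
theorem g1198 : ∀ j, 1198 ≤ j → st j ≠ 0 → Good (st j) := bk k1198 g1199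
theorem g1197 : ∀ j, 1197 ≤ j → st j ≠ 0 → Good (st j) := bk k1197 g1198
theorem g1196 : ∀ j, 1196 ≤ j → st j ≠ 0 → Good (st j) := bk k1196 g1197
theorem g1195 : ∀ j, 1195 ≤ j → st j ≠ 0 → Good (st j) := bk k1195 g1196
theorem g1194 : ∀ j, 1194 ≤ j → st j ≠ 0 → Good (st j) := bk k1194 g1195
theorem g1193 : ∀ j, 1193 ≤ j → st j ≠ 0 → Good (st j) := bk k1193 g1194
theorem g1192 : ∀ j, 1192 ≤ j → st j ≠ 0 → Good (st j) := bk k1192 g1193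
theorem g1191 : ∀ j, 1191 ≤ j → st j ≠ 0 → Good (st j) := bk k1191 g1192
theorem g1190 : ∀ j, 1190 ≤ j → st j ≠ 0 → Good (st j) := bk k1190 g1191
theorem g1189 : ∀ j, 1189 ≤ j → st j ≠ 0 → Good (st j) := bk k1189 g1190
theorem g1188 : ∀ j, 1188 ≤ j → st j ≠ 0 → Good (st j) := bk k1188 g1189
theorem g1187 : ∀ j, 1187 ≤ j → st j ≠ 0 → Good (st j) := bk k1187 g1188
theorem g1186 : ∀ j, 1186 ≤ j → st j ≠ 0 → Good (st j) := bk k1186 g1187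
theorem g1185 : ∀ j, 1185 ≤ j → st j ≠ 0 → Good (st j) := bk k1185 g1186
theorem g1184 : ∀ j, 1184 ≤ j → st j ≠ 0 → Good (st j) := bk k1184 g1185
theorem g1183 : ∀ j, 1183 ≤ j → st j ≠ 0 → Good (st j) := bk k1183 g1184
theorem g1182 : ∀ j, 1182 ≤ j → st j ≠ 0 → Good (st j) := bk k1182 g1183
theorem g1181 : ∀ j, 1181 ≤ j → st j ≠ 0 → Good (st j) := bk k1181 g1182
theorem g1180 : ∀ j, 1180 ≤ j → st j ≠ 0 → Good (st j) := bk k1180 g1181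
theorem g1179 : ∀ j, 1179 ≤ j → st j ≠ 0 → Good (st j) := bk k1179 g1180
theorem g1178 : ∀ j, 1178 ≤ j → st j ≠ 0 → Good (st j) := bk k1178 g1179
theorem g1177 : ∀ j, 1177 ≤ j → st j ≠ 0 → Good (st j) := bk k1177 g1178
theorem g1176 : ∀ j, 1176 ≤ j → st j ≠ 0 → Good (st j) := bk k1176 g1177
theorem g1175 : ∀ j, 1175 ≤ j → st j ≠ 0 → Good (st j) := bk k1175 g1176
theorem g1174 : ∀ j, 1174 ≤ j → st j ≠ 0 → Good (st j) := bk k1174 g1175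
theorem g1173 : ∀ j, 1173 ≤ j → st j ≠ 0 → Good (st j) := bk k1173 g1174
theorem g1172 : ∀ j, 1172 ≤ j → st j ≠ 0 → Good (st j) := bk k1172 g1173
theorem g1171 : ∀ j, 1171 ≤ j → st j ≠ 0 → Good (st j) := bk k1171 g1172
theorem g1170 : ∀ j, 1170 ≤ j → st j ≠ 0 → Good (st j) := bk k1170 g1171
theorem g1169 : ∀ j, 1169 ≤ j → st j ≠ 0 → Good (st j) := bk k1169 g1170
theorem g1168 : ∀ j, 1168 ≤ j → st j ≠ 0 → Good (st j) := bk k1168 g1169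
theorem g1167 : ∀ j, 1167 ≤ j → st j ≠ 0 → Good (st j) := bk k1167 g1168
theorem g1166 : ∀ j, 1166 ≤ j → st j ≠ 0 → Good (st j) := bk k1166 g1167
theorem g1165 : ∀ j, 1165 ≤ j → st j ≠ 0 → Good (st j) := bk k1165 g1166
theorem g1164 : ∀ j, 1164 ≤ j → st j ≠ 0 → Good (st j) := bk k1164 g1165
theorem g1163 : ∀ j, 1163 ≤ j → st j ≠ 0 → Good (st j) := bk k1163 g1164
theorem g1162 : ∀ j, 1162 ≤ j → st j ≠ 0 → Good (st j) := bk k1162 g1163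
theorem g1161 : ∀ j, 1161 ≤ j → st j ≠ 0 → Good (st j) := bk k1161 g1162
theorem g1160 : ∀ j, 1160 ≤ j → st j ≠ 0 → Good (st j) := bk k1160 g1161
theorem g1159 : ∀ j, 1159 ≤ j → st j ≠ 0 → Good (st j) := bk k1159 g1160
theorem g1158 : ∀ j, 1158 ≤ j → st j ≠ 0 → Good (st j) := bk k1158 g1159
theorem g1157 : ∀ j, 1157 ≤ j → st j ≠ 0 → Good (st j) := bk k1157 g1158
theorem g1156 : ∀ j, 1156 ≤ j → st j ≠ 0 → Good (st j) := bk k1156 g1157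
theorem g1155 : ∀ j, 1155 ≤ j → st j ≠ 0 → Good (st j) := bk k1155 g1156
theorem g1154 : ∀ j, 1154 ≤ j → st j ≠ 0 → Good (st j) := bk k1154 g1155
theorem g1153 : ∀ j, 1153 ≤ j → st j ≠ 0 → Good (st j) := bk k1153 g1154
theorem g1152 : ∀ j, 1152 ≤ j → st j ≠ 0 → Good (st j) := bk k1152 g1153
theorem g1151 : ∀ j, 1151 ≤ j → st j ≠ 0 → Good (st j) := bk k1151 g1152
theorem g1150 : ∀ j, 1150 ≤ j → st j ≠ 0 → Good (st j) := bk k1150 g1151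
theorem g1149 : ∀ j, 1149 ≤ j → st j ≠ 0 → Good (st j) := bk k1149 g1150
theorem g1148 : ∀ j, 1148 ≤ j → st j ≠ 0 → Good (st j) := bk k1148 g1149
theorem g1147 : ∀ j, 1147 ≤ j → st j ≠ 0 → Good (st j) := bk k1147 g1148
theorem g1146 : ∀ j, 1146 ≤ j → st j ≠ 0 → Good (st j) := bk k1146 g1147
theorem g1145 : ∀ j, 1145 ≤ j → st j ≠ 0 → Good (st j) := bk k1145 g1146
theorem g1144 : ∀ j, 1144 ≤ j → st j ≠ 0 → Good (st j) := bk k1144 g1145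
theorem g1143 : ∀ j, 1143 ≤ j → st j ≠ 0 → Good (st j) := bk k1143 g1144
theorem g1142 : ∀ j, 1142 ≤ j → st j ≠ 0 → Good (st j) := bk k1142 g1143
theorem g1141 : ∀ j, 1141 ≤ j → st j ≠ 0 → Good (st j) := bk k1141 g1142
theorem g1140 : ∀ j, 1140 ≤ j → st j ≠ 0 → Good (st j) := bk k1140 g1141
theorem g1139 : ∀ j, 1139 ≤ j → st j ≠ 0 → Good (st j) := bk k1139 g1140
theorem g1138 : ∀ j, 1138 ≤ j → st j ≠ 0 → Good (st j) := bk k1138 g1139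
theorem g1137 : ∀ j, 1137 ≤ j → st j ≠ 0 → Good (st j) := bk k1137 g1138
theorem g1136 : ∀ j, 1136 ≤ j → st j ≠ 0 → Good (st j) := bk k1136 g1137
theorem g1135 : ∀ j, 1135 ≤ j → st j ≠ 0 → Good (st j) := bk k1135 g1136
theorem g1134 : ∀ j, 1134 ≤ j → st j ≠ 0 → Good (st j) := bk k1134 g1135
theorem g1133 : ∀ j, 1133 ≤ j → st j ≠ 0 → Good (st j) := bk k1133 g1134
theorem g1132 : ∀ j, 1132 ≤ j → st j ≠ 0 → Good (st j) := bk k1132 g1133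
theorem g1131 : ∀ j, 1131 ≤ j → st j ≠ 0 → Good (st j) := bk k1131 g1132
theorem g1130 : ∀ j, 1130 ≤ j → st j ≠ 0 → Good (st j) := bk k1130 g1131
theorem g1129 : ∀ j, 1129 ≤ j → st j ≠ 0 → Good (st j) := bk k1129 g1130
theorem g1128 : ∀ j, 1128 ≤ j → st j ≠ 0 → Good (st j) := bk k1128 g1129
theorem g1127 : ∀ j, 1127 ≤ j → st j ≠ 0 → Good (st j) := bk k1127 g1128
theorem g1126 : ∀ j, 1126 ≤ j → st j ≠ 0 → Good (st j) := bk k1126 g1127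
theorem g1125 : ∀ j, 1125 ≤ j → st j ≠ 0 → Good (st j) := bk k1125 g1126
theorem g1124 : ∀ j, 1124 ≤ j → st j ≠ 0 → Good (st j) := bk k1124 g1125
theorem g1123 : ∀ j, 1123 ≤ j → st j ≠ 0 → Good (st j) := bk k1123 g1124
theorem g1122 : ∀ j, 1122 ≤ j → st j ≠ 0 → Good (st j) := bk k1122 g1123
theorem g1121 : ∀ j, 1121 ≤ j → st j ≠ 0 → Good (st j) := bk k1121 g1122
theorem g1120 : ∀ j, 1120 ≤ j → st j ≠ 0 → Good (st j) := bk k1120 g1121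
theorem g1119 : ∀ j, 1119 ≤ j → st j ≠ 0 → Good (st j) := bk k1119 g1120
theorem g1118 : ∀ j, 1118 ≤ j → st j ≠ 0 → Good (st j) := bk k1118 g1119
theorem g1117 : ∀ j, 1117 ≤ j → st j ≠ 0 → Good (st j) := bk k1117 g1118
theorem g1116 : ∀ j, 1116 ≤ j → st j ≠ 0 → Good (st j) := bk k1116 g1117
theorem g1115 : ∀ j, 1115 ≤ j → st j ≠ 0 → Good (st j) := bk k1115 g1116
theorem g1114 : ∀ j, 1114 ≤ j → st j ≠ 0 → Good (st j) := bk k1114 g1115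
theorem g1113 : ∀ j, 1113 ≤ j → st j ≠ 0 → Good (st j) := bk k1113 g1114
theorem g1112 : ∀ j, 1112 ≤ j → st j ≠ 0 → Good (st j) := bk k1112 g1113
theorem g1111 : ∀ j, 1111 ≤ j → st j ≠ 0 → Good (st j) := bk k1111 g1112
theorem g1110 : ∀ j, 1110 ≤ j → st j ≠ 0 → Good (st j) := bk k1110 g1111
theorem g1109 : ∀ j, 1109 ≤ j → st j ≠ 0 → Good (st j) := bk k1109 g1110
theorem g1108 : ∀ j, 1108 ≤ j → st j ≠ 0 → Good (st j) := bk k1108 g1109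
theorem g1107 : ∀ j, 1107 ≤ j → st j ≠ 0 → Good (st j) := bk k1107 g1108
theorem g1106 : ∀ j, 1106 ≤ j → st j ≠ 0 → Good (st j) := bk k1106 g1107
theorem g1105 : ∀ j, 1105 ≤ j → st j ≠ 0 → Good (st j) := bk k1105 g1106
theorem g1104 : ∀ j, 1104 ≤ j → st j ≠ 0 → Good (st j) := bk k1104 g1105
theorem g1103 : ∀ j, 1103 ≤ j → st j ≠ 0 → Good (st j) := bk k1103 g1104
theorem g1102 : ∀ j, 1102 ≤ j → st j ≠ 0 → Good (st j) := bk k1102 g1103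
theorem g1101 : ∀ j, 1101 ≤ j → st j ≠ 0 → Good (st j) := bk k1101 g1102
theorem g1100 : ∀ j, 1100 ≤ j → st j ≠ 0 → Good (st j) := bk k1100 g1101
theorem g1099 : ∀ j, 1099 ≤ j → st j ≠ 0 → Good (st j) := bk k1099 g1100
theorem g1098 : ∀ j, 1098 ≤ j → st j ≠ 0 → Good (st j) := bk k1098 g1099
theorem g1097 : ∀ j, 1097 ≤ j → st j ≠ 0 → Good (st j) := bk k1097 g1098
theorem g1096 : ∀ j, 1096 ≤ j → st j ≠ 0 → Good (st j) := bk k1096 g1097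
theorem g1095 : ∀ j, 1095 ≤ j → st j ≠ 0 → Good (st j) := bk k1095 g1096
theorem g1094 : ∀ j, 1094 ≤ j → st j ≠ 0 → Good (st j) := bk k1094 g1095
theorem g1093 : ∀ j, 1093 ≤ j → st j ≠ 0 → Good (st j) := bk k1093 g1094
theorem g1092 : ∀ j, 1092 ≤ j → st j ≠ 0 → Good (st j) := bk k1092 g1093
theorem g1091 : ∀ j, 1091 ≤ j → st j ≠ 0 → Good (st j) := bk k1091 g1092
theorem g1090 : ∀ j, 1090 ≤ j → st j ≠ 0 → Good (st j) := bk k1090 g1091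
theorem g1089 : ∀ j, 1089 ≤ j → st j ≠ 0 → Good (st j) := bk k1089 g1090
theorem g1088 : ∀ j, 1088 ≤ j → st j ≠ 0 → Good (st j) := bk k1088 g1089
theorem g1087 : ∀ j, 1087 ≤ j → st j ≠ 0 → Good (st j) := bk k1087 g1088
theorem g1086 : ∀ j, 1086 ≤ j → st j ≠ 0 → Good (st j) := bk k1086 g1087
theorem g1085 : ∀ j, 1085 ≤ j → st j ≠ 0 → Good (st j) := bk k1085 g1086
theorem g1084 : ∀ j, 1084 ≤ j → st j ≠ 0 → Good (st j) := bk k1084 g1085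
theorem g1083 : ∀ j, 1083 ≤ j → st j ≠ 0 → Good (st j) := bk k1083 g1084
theorem g1082 : ∀ j, 1082 ≤ j → st j ≠ 0 → Good (st j) := bk k1082 g1083
theorem g1081 : ∀ j, 1081 ≤ j → st j ≠ 0 → Good (st j) := bk k1081 g1082
theorem g1080 : ∀ j, 1080 ≤ j → st j ≠ 0 → Good (st j) := bk k1080 g1081
theorem g1079 : ∀ j, 1079 ≤ j → st j ≠ 0 → Good (st j) := bk k1079 g1080
theorem g1078 : ∀ j, 1078 ≤ j → st j ≠ 0 → Good (st j) := bk k1078 g1079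
theorem g1077 : ∀ j, 1077 ≤ j → st j ≠ 0 → Good (st j) := bk k1077 g1078
theorem g1076 : ∀ j, 1076 ≤ j → st j ≠ 0 → Good (st j) := bk k1076 g1077
theorem g1075 : ∀ j, 1075 ≤ j → st j ≠ 0 → Good (st j) := bk k1075 g1076
theorem g1074 : ∀ j, 1074 ≤ j → st j ≠ 0 → Good (st j) := bk k1074 g1075
theorem g1073 : ∀ j, 1073 ≤ j → st j ≠ 0 → Good (st j) := bk k1073 g1074
theorem g1072 : ∀ j, 1072 ≤ j → st j ≠ 0 → Good (st j) := bk k1072 g1073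
theorem g1071 : ∀ j, 1071 ≤ j → st j ≠ 0 → Good (st j) := bk k1071 g1072
theorem g1070 : ∀ j, 1070 ≤ j → st j ≠ 0 → Good (st j) := bk k1070 g1071
theorem g1069 : ∀ j, 1069 ≤ j → st j ≠ 0 → Good (st j) := bk k1069 g1070
theorem g1068 : ∀ j, 1068 ≤ j → st j ≠ 0 → Good (st j) := bk k1068 g1069
theorem g1067 : ∀ j, 1067 ≤ j → st j ≠ 0 → Good (st j) := bk k1067 g1068
theorem g1066 : ∀ j, 1066 ≤ j → st j ≠ 0 → Good (st j) := bk k1066 g1067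
theorem g1065 : ∀ j, 1065 ≤ j → st j ≠ 0 → Good (st j) := bk k1065 g1066
theorem g1064 : ∀ j, 1064 ≤ j → st j ≠ 0 → Good (st j) := bk k1064 g1065
theorem g1063 : ∀ j, 1063 ≤ j → st j ≠ 0 → Good (st j) := bk k1063 g1064
theorem g1062 : ∀ j, 1062 ≤ j → st j ≠ 0 → Good (st j) := bk k1062 g1063
theorem g1061 : ∀ j, 1061 ≤ j → st j ≠ 0 → Good (st j) := bk k1061 g1062
theorem g1060 : ∀ j, 1060 ≤ j → st j ≠ 0 → Good (st j) := bk k1060 g1061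
theorem g1059 : ∀ j, 1059 ≤ j → st j ≠ 0 → Good (st j) := bk k1059 g1060
theorem g1058 : ∀ j, 1058 ≤ j → st j ≠ 0 → Good (st j) := bk k1058 g1059
theorem g1057 : ∀ j, 1057 ≤ j → st j ≠ 0 → Good (st j) := bk k1057 g1058
theorem g1056 : ∀ j, 1056 ≤ j → st j ≠ 0 → Good (st j) := bk k1056 g1057
theorem g1055 : ∀ j, 1055 ≤ j → st j ≠ 0 → Good (st j) := bk k1055 g1056
theorem g1054 : ∀ j, 1054 ≤ j → st j ≠ 0 → Good (st j) := bk k1054 g1055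
theorem g1053 : ∀ j, 1053 ≤ j → st j ≠ 0 → Good (st j) := bk k1053 g1054
theorem g1052 : ∀ j, 1052 ≤ j → st j ≠ 0 → Good (st j) := bk k1052 g1053
theorem g1051 : ∀ j, 1051 ≤ j → st j ≠ 0 → Good (st j) := bk k1051 g1052
theorem g1050 : ∀ j, 1050 ≤ j → st j ≠ 0 → Good (st j) := bk k1050 g1051
theorem g1049 : ∀ j, 1049 ≤ j → st j ≠ 0 → Good (st j) := bk k1049 g1050
theorem g1048 : ∀ j, 1048 ≤ j → st j ≠ 0 → Good (st j) := bk k1048 g1049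
theorem g1047 : ∀ j, 1047 ≤ j → st j ≠ 0 → Good (st j) := bk k1047 g1048
theorem g1046 : ∀ j, 1046 ≤ j → st j ≠ 0 → Good (st j) := bk k1046 g1047
theorem g1045 : ∀ j, 1045 ≤ j → st j ≠ 0 → Good (st j) := bk k1045 g1046
theorem g1044 : ∀ j, 1044 ≤ j → st j ≠ 0 → Good (st j) := bk k1044 g1045
theorem g1043 : ∀ j, 1043 ≤ j → st j ≠ 0 → Good (st j) := bk k1043 g1044
theorem g1042 : ∀ j, 1042 ≤ j → st j ≠ 0 → Good (st j) := bk k1042 g1043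
theorem g1041 : ∀ j, 1041 ≤ j → st j ≠ 0 → Good (st j) := bk k1041 g1042
theorem g1040 : ∀ j, 1040 ≤ j → st j ≠ 0 → Good (st j) := bk k1040 g1041
theorem g1039 : ∀ j, 1039 ≤ j → st j ≠ 0 → Good (st j) := bk k1039 g1040
theorem g1038 : ∀ j, 1038 ≤ j → st j ≠ 0 → Good (st j) := bk k1038 g1039
theorem g1037 : ∀ j, 1037 ≤ j → st j ≠ 0 → Good (st j) := bk k1037 g1038
theorem g1036 : ∀ j, 1036 ≤ j → st j ≠ 0 → Good (st j) := bk k1036 g1037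
theorem g1035 : ∀ j, 1035 ≤ j → st j ≠ 0 → Good (st j) := bk k1035 g1036
theorem g1034 : ∀ j, 1034 ≤ j → st j ≠ 0 → Good (st j) := bk k1034 g1035
theorem g1033 : ∀ j, 1033 ≤ j → st j ≠ 0 → Good (st j) := bk k1033 g1034
theorem g1032 : ∀ j, 1032 ≤ j → st j ≠ 0 → Good (st j) := bk k1032 g1033
theorem g1031 : ∀ j, 1031 ≤ j → st j ≠ 0 → Good (st j) := bk k1031 g1032
theorem g1030 : ∀ j, 1030 ≤ j → st j ≠ 0 → Good (st j) := bk k1030 g1031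
theorem g1029 : ∀ j, 1029 ≤ j → st j ≠ 0 → Good (st j) := bk k1029 g1030
theorem g1028 : ∀ j, 1028 ≤ j → st j ≠ 0 → Good (st j) := bk k1028 g1029
theorem g1027 : ∀ j, 1027 ≤ j → st j ≠ 0 → Good (st j) := bk k1027 g1028
theorem g1026 : ∀ j, 1026 ≤ j → st j ≠ 0 → Good (st j) := bk k1026 g1027
theorem g1025 : ∀ j, 1025 ≤ j → st j ≠ 0 → Good (st j) := bk k1025 g1026
theorem g1024 : ∀ j, 1024 ≤ j → st j ≠ 0 → Good (st j) := bk k1024 g1025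
theorem g1023 : ∀ j, 1023 ≤ j → st j ≠ 0 → Good (st j) := bk k1023 g1024
theorem g1022 : ∀ j, 1022 ≤ j → st j ≠ 0 → Good (st j) := bk k1022 g1023
theorem g1021 : ∀ j, 1021 ≤ j → st j ≠ 0 → Good (st j) := bk k1021 g1022
theorem g1020 : ∀ j, 1020 ≤ j → st j ≠ 0 → Good (st j) := bk k1020 g1021
theorem g1019 : ∀ j, 1019 ≤ j → st j ≠ 0 → Good (st j) := bk k1019 g1020
theorem g1018 : ∀ j, 1018 ≤ j → st j ≠ 0 → Good (st j) := bk k1018 g1019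
theorem g1017 : ∀ j, 1017 ≤ j → st j ≠ 0 → Good (st j) := bk k1017 g1018
theorem g1016 : ∀ j, 1016 ≤ j → st j ≠ 0 → Good (st j) := bk k1016 g1017
theorem g1015 : ∀ j, 1015 ≤ j → st j ≠ 0 → Good (st j) := bk k1015 g1016
theorem g1014 : ∀ j, 1014 ≤ j → st j ≠ 0 → Good (st j) := bk k1014 g1015
theorem g1013 : ∀ j, 1013 ≤ j → st j ≠ 0 → Good (st j) := bk k1013 g1014
theorem g1012 : ∀ j, 1012 ≤ j → st j ≠ 0 → Good (st j) := bk k1012 g1013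
theorem g1011 : ∀ j, 1011 ≤ j → st j ≠ 0 → Good (st j) := bk k1011 g1012
theorem g1010 : ∀ j, 1010 ≤ j → st j ≠ 0 → Good (st j) := bk k1010 g1011
theorem g1009 : ∀ j, 1009 ≤ j → st j ≠ 0 → Good (st j) := bk k1009 g1010
theorem g1008 : ∀ j, 1008 ≤ j → st j ≠ 0 → Good (st j) := bk k1008 g1009
theorem g1007 : ∀ j, 1007 ≤ j → st j ≠ 0 → Good (st j) := bk k1007 g1008
theorem g1006 : ∀ j, 1006 ≤ j → st j ≠ 0 → Good (st j) := bk k1006 g1007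
theorem g1005 : ∀ j, 1005 ≤ j → st j ≠ 0 → Good (st j) := bk k1005 g1006
theorem g1004 : ∀ j, 1004 ≤ j → st j ≠ 0 → Good (st j) := bk k1004 g1005
theorem g1003 : ∀ j, 1003 ≤ j → st j ≠ 0 → Good (st j) := bk k1003 g1004
theorem g1002 : ∀ j, 1002 ≤ j → st j ≠ 0 → Good (st j) := bk k1002 g1003
theorem g1001 : ∀ j, 1001 ≤ j → st j ≠ 0 → Good (st j) := bk k1001 g1002
theorem g1000 : ∀ j, 1000 ≤ j → st j ≠ 0 → Good (st j) := bk k1000 g1001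
theorem g999 : ∀ j, 999 ≤ j → st j ≠ 0 → Good (st j) := bk k999 g1000
theorem g998 : ∀ j, 998 ≤ j → st j ≠ 0 → Good (st j) := bk k998 g999
theorem g997 : ∀ j, 997 ≤ j → st j ≠ 0 → Good (st j) := bk k997 g998
theorem g996 : ∀ j, 996 ≤ j → st j ≠ 0 → Good (st j) := bk k996 g997
theorem g995 : ∀ j, 995 ≤ j → st j ≠ 0 → Good (st j) := bk k995 g996
theorem g994 : ∀ j, 994 ≤ j → st j ≠ 0 → Good (st j) := bk k994 g995
theorem g993 : ∀ j, 993 ≤ j → st j ≠ 0 → Good (st j) := bk k993 g994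
theorem g992 : ∀ j, 992 ≤ j → st j ≠ 0 → Good (st j) := bk k992 g993
theorem g991 : ∀ j, 991 ≤ j → st j ≠ 0 → Good (st j) := bk k991 g992
theorem g990 : ∀ j, 990 ≤ j → st j ≠ 0 → Good (st j) := bk k990 g991
theorem g989 : ∀ j, 989 ≤ j → st j ≠ 0 → Good (st j) := bk k989 g990
theorem g988 : ∀ j, 988 ≤ j → st j ≠ 0 → Good (st j) := bk k988 g989
theorem g987 : ∀ j, 987 ≤ j → st j ≠ 0 → Good (st j) := bk k987 g988
theorem g986 : ∀ j, 986 ≤ j → st j ≠ 0 → Good (st j) := bk k986 g987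
theorem g985 : ∀ j, 985 ≤ j → st j ≠ 0 → Good (st j) := bk k985 g986
theorem g984 : ∀ j, 984 ≤ j → st j ≠ 0 → Good (st j) := bk k984 g985
theorem g983 : ∀ j, 983 ≤ j → st j ≠ 0 → Good (st j) := bk k983 g984
theorem g982 : ∀ j, 982 ≤ j → st j ≠ 0 → Good (st j) := bk k982 g983
theorem g981 : ∀ j, 981 ≤ j → st j ≠ 0 → Good (st j) := bk k981 g982
theorem g980 : ∀ j, 980 ≤ j → st j ≠ 0 → Good (st j) := bk k980 g981
theorem g979 : ∀ j, 979 ≤ j → st j ≠ 0 → Good (st j) := bk k979 g980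
theorem g978 : ∀ j, 978 ≤ j → st j ≠ 0 → Good (st j) := bk k978 g979
theorem g977 : ∀ j, 977 ≤ j → st j ≠ 0 → Good (st j) := bk k977 g978
theorem g976 : ∀ j, 976 ≤ j → st j ≠ 0 → Good (st j) := bk k976 g977
theorem g975 : ∀ j, 975 ≤ j → st j ≠ 0 → Good (st j) := bk k975 g976
theorem g974 : ∀ j, 974 ≤ j → st j ≠ 0 → Good (st j) := bk k974 g975
theorem g973 : ∀ j, 973 ≤ j → st j ≠ 0 → Good (st j) := bk k973 g974
theorem g972 : ∀ j, 972 ≤ j → st j ≠ 0 → Good (st j) := bk k972 g973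
theorem g971 : ∀ j, 971 ≤ j → st j ≠ 0 → Good (st j) := bk k971 g972
theorem g970 : ∀ j, 970 ≤ j → st j ≠ 0 → Good (st j) := bk k970 g971
theorem g969 : ∀ j, 969 ≤ j → st j ≠ 0 → Good (st j) := bk k969 g970
theorem g968 : ∀ j, 968 ≤ j → st j ≠ 0 → Good (st j) := bk k968 g969
theorem g967 : ∀ j, 967 ≤ j → st j ≠ 0 → Good (st j) := bk k967 g968
theorem g966 : ∀ j, 966 ≤ j → st j ≠ 0 → Good (st j) := bk k966 g967
theorem g965 : ∀ j, 965 ≤ j → st j ≠ 0 → Good (st j) := bk k965 g966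
theorem g964 : ∀ j, 964 ≤ j → st j ≠ 0 → Good (st j) := bk k964 g965
theorem g963 : ∀ j, 963 ≤ j → st j ≠ 0 → Good (st j) := bk k963 g964
theorem g962 : ∀ j, 962 ≤ j → st j ≠ 0 → Good (st j) := bk k962 g963
theorem g961 : ∀ j, 961 ≤ j → st j ≠ 0 → Good (st j) := bk k961 g962
theorem g960 : ∀ j, 960 ≤ j → st j ≠ 0 → Good (st j) := bk k960 g961
theorem g959 : ∀ j, 959 ≤ j → st j ≠ 0 → Good (st j) := bk k959 g960
theorem g958 : ∀ j, 958 ≤ j → st j ≠ 0 → Good (st j) := bk k958 g959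
theorem g957 : ∀ j, 957 ≤ j → st j ≠ 0 → Good (st j) := bk k957 g958
theorem g956 : ∀ j, 956 ≤ j → st j ≠ 0 → Good (st j) := bk k956 g957
theorem g955 : ∀ j, 955 ≤ j → st j ≠ 0 → Good (st j) := bk k955 g956
theorem g954 : ∀ j, 954 ≤ j → st j ≠ 0 → Good (st j) := bk k954 g955
theorem g953 : ∀ j, 953 ≤ j → st j ≠ 0 → Good (st j) := bk k953 g954
theorem g952 : ∀ j, 952 ≤ j → st j ≠ 0 → Good (st j) := bk k952 g953
theorem g951 : ∀ j, 951 ≤ j → st j ≠ 0 → Good (st j) := bk k951 g952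
theorem g950 : ∀ j, 950 ≤ j → st j ≠ 0 → Good (st j) := bk k950 g951
theorem g949 : ∀ j, 949 ≤ j → st j ≠ 0 → Good (st j) := bk k949 g950
theorem g948 : ∀ j, 948 ≤ j → st j ≠ 0 → Good (st j) := bk k948 g949
theorem g947 : ∀ j, 947 ≤ j → st j ≠ 0 → Good (st j) := bk k947 g948
theorem g946 : ∀ j, 946 ≤ j → st j ≠ 0 → Good (st j) := bk k946 g947
theorem g945 : ∀ j, 945 ≤ j → st j ≠ 0 → Good (st j) := bk k945 g946
theorem g944 : ∀ j, 944 ≤ j → st j ≠ 0 → Good (st j) := bk k944 g945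
theorem g943 : ∀ j, 943 ≤ j → st j ≠ 0 → Good (st j) := bk k943 g944
theorem g942 : ∀ j, 942 ≤ j → st j ≠ 0 → Good (st j) := bk k942 g943
theorem g941 : ∀ j, 941 ≤ j → st j ≠ 0 → Good (st j) := bk k941 g942
theorem g940 : ∀ j, 940 ≤ j → st j ≠ 0 → Good (st j) := bk k940 g941
theorem g939 : ∀ j, 939 ≤ j → st j ≠ 0 → Good (st j) := bk k939 g940
theorem g938 : ∀ j, 938 ≤ j → st j ≠ 0 → Good (st j) := bk k938 g939
theorem g937 : ∀ j, 937 ≤ j → st j ≠ 0 → Good (st j) := bk k937 g938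
theorem g936 : ∀ j, 936 ≤ j → st j ≠ 0 → Good (st j) := bk k936 g937
theorem g935 : ∀ j, 935 ≤ j → st j ≠ 0 → Good (st j) := bk k935 g936
theorem g934 : ∀ j, 934 ≤ j → st j ≠ 0 → Good (st j) := bk k934 g935
theorem g933 : ∀ j, 933 ≤ j → st j ≠ 0 → Good (st j) := bk k933 g934
theorem g932 : ∀ j, 932 ≤ j → st j ≠ 0 → Good (st j) := bk k932 g933
theorem g931 : ∀ j, 931 ≤ j → st j ≠ 0 → Good (st j) := bk k931 g932
theorem g930 : ∀ j, 930 ≤ j → st j ≠ 0 → Good (st j) := bk k930 g931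
theorem g929 : ∀ j, 929 ≤ j → st j ≠ 0 → Good (st j) := bk k929 g930
theorem g928 : ∀ j, 928 ≤ j → st j ≠ 0 → Good (st j) := bk k928 g929
theorem g927 : ∀ j, 927 ≤ j → st j ≠ 0 → Good (st j) := bk k927 g928
theorem g926 : ∀ j, 926 ≤ j → st j ≠ 0 → Good (st j) := bk k926 g927
theorem g925 : ∀ j, 925 ≤ j → st j ≠ 0 → Good (st j) := bk k925 g926
theorem g924 : ∀ j, 924 ≤ j → st j ≠ 0 → Good (st j) := bk k924 g925
theorem g923 : ∀ j, 923 ≤ j → st j ≠ 0 → Good (st j) := bk k923 g924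
theorem g922 : ∀ j, 922 ≤ j → st j ≠ 0 → Good (st j) := bk k922 g923
theorem g921 : ∀ j, 921 ≤ j → st j ≠ 0 → Good (st j) := bk k921 g922
theorem g920 : ∀ j, 920 ≤ j → st j ≠ 0 → Good (st j) := bk k920 g921
theorem g919 : ∀ j, 919 ≤ j → st j ≠ 0 → Good (st j) := bk k919 g920
theorem g918 : ∀ j, 918 ≤ j → st j ≠ 0 → Good (st j) := bk k918 g919
theorem g917 : ∀ j, 917 ≤ j → st j ≠ 0 → Good (st j) := bk k917 g918
theorem g916 : ∀ j, 916 ≤ j → st j ≠ 0 → Good (st j) := bk k916 g917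
theorem g915 : ∀ j, 915 ≤ j → st j ≠ 0 → Good (st j) := bk k915 g916
theorem g914 : ∀ j, 914 ≤ j → st j ≠ 0 → Good (st j) := bk k914 g915
theorem g913 : ∀ j, 913 ≤ j → st j ≠ 0 → Good (st j) := bk k913 g914
theorem g912 : ∀ j, 912 ≤ j → st j ≠ 0 → Good (st j) := bk k912 g913
theorem g911 : ∀ j, 911 ≤ j → st j ≠ 0 → Good (st j) := bk k911 g912
theorem g910 : ∀ j, 910 ≤ j → st j ≠ 0 → Good (st j) := bk k910 g911
theorem g909 : ∀ j, 909 ≤ j → st j ≠ 0 → Good (st j) := bk k909 g910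
theorem g908 : ∀ j, 908 ≤ j → st j ≠ 0 → Good (st j) := bk k908 g909
theorem g907 : ∀ j, 907 ≤ j → st j ≠ 0 → Good (st j) := bk k907 g908
theorem g906 : ∀ j, 906 ≤ j → st j ≠ 0 → Good (st j) := bk k906 g907
theorem g905 : ∀ j, 905 ≤ j → st j ≠ 0 → Good (st j) := bk k905 g906
theorem g904 : ∀ j, 904 ≤ j → st j ≠ 0 → Good (st j) := bk k904 g905
theorem g903 : ∀ j, 903 ≤ j → st j ≠ 0 → Good (st j) := bk k903 g904
theorem g902 : ∀ j, 902 ≤ j → st j ≠ 0 → Good (st j) := bk k902 g903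
theorem g901 : ∀ j, 901 ≤ j → st j ≠ 0 → Good (st j) := bk k901 g902
theorem g900 : ∀ j, 900 ≤ j → st j ≠ 0 → Good (st j) := bk k900 g901
theorem g899 : ∀ j, 899 ≤ j → st j ≠ 0 → Good (st j) := bk k899 g900
theorem g898 : ∀ j, 898 ≤ j → st j ≠ 0 → Good (st j) := bk k898 g899
theorem g897 : ∀ j, 897 ≤ j → st j ≠ 0 → Good (st j) := bk k897 g898
theorem g896 : ∀ j, 896 ≤ j → st j ≠ 0 → Good (st j) := bk k896 g897
theorem g895 : ∀ j, 895 ≤ j → st j ≠ 0 → Good (st j) := bk k895 g896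
theorem g894 : ∀ j, 894 ≤ j → st j ≠ 0 → Good (st j) := bk k894 g895
theorem g893 : ∀ j, 893 ≤ j → st j ≠ 0 → Good (st j) := bk k893 g894
theorem g892 : ∀ j, 892 ≤ j → st j ≠ 0 → Good (st j) := bk k892 g893
theorem g891 : ∀ j, 891 ≤ j → st j ≠ 0 → Good (st j) := bk k891 g892
theorem g890 : ∀ j, 890 ≤ j → st j ≠ 0 → Good (st j) := bk k890 g891
theorem g889 : ∀ j, 889 ≤ j → st j ≠ 0 → Good (st j) := bk k889 g890
theorem g888 : ∀ j, 888 ≤ j → st j ≠ 0 → Good (st j) := bk k888 g889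
theorem g887 : ∀ j, 887 ≤ j → st j ≠ 0 → Good (st j) := bk k887 g888
theorem g886 : ∀ j, 886 ≤ j → st j ≠ 0 → Good (st j) := bk k886 g887
theorem g885 : ∀ j, 885 ≤ j → st j ≠ 0 → Good (st j) := bk k885 g886
theorem g884 : ∀ j, 884 ≤ j → st j ≠ 0 → Good (st j) := bk k884 g885
theorem g883 : ∀ j, 883 ≤ j → st j ≠ 0 → Good (st j) := bk k883 g884
theorem g882 : ∀ j, 882 ≤ j → st j ≠ 0 → Good (st j) := bk k882 g883
theorem g881 : ∀ j, 881 ≤ j → st j ≠ 0 → Good (st j) := bk k881 g882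
theorem g880 : ∀ j, 880 ≤ j → st j ≠ 0 → Good (st j) := bk k880 g881
theorem g879 : ∀ j, 879 ≤ j → st j ≠ 0 → Good (st j) := bk k879 g880
theorem g878 : ∀ j, 878 ≤ j → st j ≠ 0 → Good (st j) := bk k878 g879
theorem g877 : ∀ j, 877 ≤ j → st j ≠ 0 → Good (st j) := bk k877 g878
theorem g876 : ∀ j, 876 ≤ j → st j ≠ 0 → Good (st j) := bk k876 g877
theorem g875 : ∀ j, 875 ≤ j → st j ≠ 0 → Good (st j) := bk k875 g876
theorem g874 : ∀ j, 874 ≤ j → st j ≠ 0 → Good (st j) := bk k874 g875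
theorem g873 : ∀ j, 873 ≤ j → st j ≠ 0 → Good (st j) := bk k873 g874
theorem g872 : ∀ j, 872 ≤ j → st j ≠ 0 → Good (st j) := bk k872 g873
theorem g871 : ∀ j, 871 ≤ j → st j ≠ 0 → Good (st j) := bk k871 g872
theorem g870 : ∀ j, 870 ≤ j → st j ≠ 0 → Good (st j) := bk k870 g871
theorem g869 : ∀ j, 869 ≤ j → st j ≠ 0 → Good (st j) := bk k869 g870
theorem g868 : ∀ j, 868 ≤ j → st j ≠ 0 → Good (st j) := bk k868 g869
theorem g867 : ∀ j, 867 ≤ j → st j ≠ 0 → Good (st j) := bk k867 g868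
theorem g866 : ∀ j, 866 ≤ j → st j ≠ 0 → Good (st j) := bk k866 g867
theorem g865 : ∀ j, 865 ≤ j → st j ≠ 0 → Good (st j) := bk k865 g866
theorem g864 : ∀ j, 864 ≤ j → st j ≠ 0 → Good (st j) := bk k864 g865
theorem g863 : ∀ j, 863 ≤ j → st j ≠ 0 → Good (st j) := bk k863 g864
theorem g862 : ∀ j, 862 ≤ j → st j ≠ 0 → Good (st j) := bk k862 g863
theorem g861 : ∀ j, 861 ≤ j → st j ≠ 0 → Good (st j) := bk k861 g862
theorem g860 : ∀ j, 860 ≤ j → st j ≠ 0 → Good (st j) := bk k860 g861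
theorem g859 : ∀ j, 859 ≤ j → st j ≠ 0 → Good (st j) := bk k859 g860
theorem g858 : ∀ j, 858 ≤ j → st j ≠ 0 → Good (st j) := bk k858 g859
theorem g857 : ∀ j, 857 ≤ j → st j ≠ 0 → Good (st j) := bk k857 g858
theorem g856 : ∀ j, 856 ≤ j → st j ≠ 0 → Good (st j) := bk k856 g857
theorem g855 : ∀ j, 855 ≤ j → st j ≠ 0 → Good (st j) := bk k855 g856
theorem g854 : ∀ j, 854 ≤ j → st j ≠ 0 → Good (st j) := bk k854 g855
theorem g853 : ∀ j, 853 ≤ j → st j ≠ 0 → Good (st j) := bk k853 g854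
theorem g852 : ∀ j, 852 ≤ j → st j ≠ 0 → Good (st j) := bk k852 g853
theorem g851 : ∀ j, 851 ≤ j → st j ≠ 0 → Good (st j) := bk k851 g852
theorem g850 : ∀ j, 850 ≤ j → st j ≠ 0 → Good (st j) := bk k850 g851
theorem g849 : ∀ j, 849 ≤ j → st j ≠ 0 → Good (st j) := bk k849 g850
theorem g848 : ∀ j, 848 ≤ j → st j ≠ 0 → Good (st j) := bk k848 g849
theorem g847 : ∀ j, 847 ≤ j → st j ≠ 0 → Good (st j) := bk k847 g848
theorem g846 : ∀ j, 846 ≤ j → st j ≠ 0 → Good (st j) := bk k846 g847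
theorem g845 : ∀ j, 845 ≤ j → st j ≠ 0 → Good (st j) := bk k845 g846
theorem g844 : ∀ j, 844 ≤ j → st j ≠ 0 → Good (st j) := bk k844 g845
theorem g843 : ∀ j, 843 ≤ j → st j ≠ 0 → Good (st j) := bk k843 g844
theorem g842 : ∀ j, 842 ≤ j → st j ≠ 0 → Good (st j) := bk k842 g843
theorem g841 : ∀ j, 841 ≤ j → st j ≠ 0 → Good (st j) := bk k841 g842
theorem g840 : ∀ j, 840 ≤ j → st j ≠ 0 → Good (st j) := bk k840 g841
theorem g839 : ∀ j, 839 ≤ j → st j ≠ 0 → Good (st j) := bk k839 g840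
theorem g838 : ∀ j, 838 ≤ j → st j ≠ 0 → Good (st j) := bk k838 g839
theorem g837 : ∀ j, 837 ≤ j → st j ≠ 0 → Good (st j) := bk k837 g838
theorem g836 : ∀ j, 836 ≤ j → st j ≠ 0 → Good (st j) := bk k836 g837
theorem g835 : ∀ j, 835 ≤ j → st j ≠ 0 → Good (st j) := bk k835 g836
theorem g834 : ∀ j, 834 ≤ j → st j ≠ 0 → Good (st j) := bk k834 g835
theorem g833 : ∀ j, 833 ≤ j → st j ≠ 0 → Good (st j) := bk k833 g834
theorem g832 : ∀ j, 832 ≤ j → st j ≠ 0 → Good (st j) := bk k832 g833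
theorem g831 : ∀ j, 831 ≤ j → st j ≠ 0 → Good (st j) := bk k831 g832
theorem g830 : ∀ j, 830 ≤ j → st j ≠ 0 → Good (st j) := bk k830 g831
theorem g829 : ∀ j, 829 ≤ j → st j ≠ 0 → Good (st j) := bk k829 g830
theorem g828 : ∀ j, 828 ≤ j → st j ≠ 0 → Good (st j) := bk k828 g829
theorem g827 : ∀ j, 827 ≤ j → st j ≠ 0 → Good (st j) := bk k827 g828
theorem g826 : ∀ j, 826 ≤ j → st j ≠ 0 → Good (st j) := bk k826 g827
theorem g825 : ∀ j, 825 ≤ j → st j ≠ 0 → Good (st j) := bk k825 g826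
theorem g824 : ∀ j, 824 ≤ j → st j ≠ 0 → Good (st j) := bk k824 g825
theorem g823 : ∀ j, 823 ≤ j → st j ≠ 0 → Good (st j) := bk k823 g824
theorem g822 : ∀ j, 822 ≤ j → st j ≠ 0 → Good (st j) := bk k822 g823
theorem g821 : ∀ j, 821 ≤ j → st j ≠ 0 → Good (st j) := bk k821 g822
theorem g820 : ∀ j, 820 ≤ j → st j ≠ 0 → Good (st j) := bk k820 g821
theorem g819 : ∀ j, 819 ≤ j → st j ≠ 0 → Good (st j) := bk k819 g820
theorem g818 : ∀ j, 818 ≤ j → st j ≠ 0 → Good (st j) := bk k818 g819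
theorem g817 : ∀ j, 817 ≤ j → st j ≠ 0 → Good (st j) := bk k817 g818
theorem g816 : ∀ j, 816 ≤ j → st j ≠ 0 → Good (st j) := bk k816 g817
theorem g815 : ∀ j, 815 ≤ j → st j ≠ 0 → Good (st j) := bk k815 g816
theorem g814 : ∀ j, 814 ≤ j → st j ≠ 0 → Good (st j) := bk k814 g815
theorem g813 : ∀ j, 813 ≤ j → st j ≠ 0 → Good (st j) := bk k813 g814
theorem g812 : ∀ j, 812 ≤ j → st j ≠ 0 → Good (st j) := bk k812 g813
theorem g811 : ∀ j, 811 ≤ j → st j ≠ 0 → Good (st j) := bk k811 g812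
theorem g810 : ∀ j, 810 ≤ j → st j ≠ 0 → Good (st j) := bk k810 g811
theorem g809 : ∀ j, 809 ≤ j → st j ≠ 0 → Good (st j) := bk k809 g810
theorem g808 : ∀ j, 808 ≤ j → st j ≠ 0 → Good (st j) := bk k808 g809
theorem g807 : ∀ j, 807 ≤ j → st j ≠ 0 → Good (st j) := bk k807 g808
theorem g806 : ∀ j, 806 ≤ j → st j ≠ 0 → Good (st j) := bk k806 g807
theorem g805 : ∀ j, 805 ≤ j → st j ≠ 0 → Good (st j) := bk k805 g806
theorem g804 : ∀ j, 804 ≤ j → st j ≠ 0 → Good (st j) := bk k804 g805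
theorem g803 : ∀ j, 803 ≤ j → st j ≠ 0 → Good (st j) := bk k803 g804
theorem g802 : ∀ j, 802 ≤ j → st j ≠ 0 → Good (st j) := bk k802 g803
theorem g801 : ∀ j, 801 ≤ j → st j ≠ 0 → Good (st j) := bk k801 g802
theorem g800 : ∀ j, 800 ≤ j → st j ≠ 0 → Good (st j) := bk k800 g801
theorem g799 : ∀ j, 799 ≤ j → st j ≠ 0 → Good (st j) := bk k799 g800
theorem g798 : ∀ j, 798 ≤ j → st j ≠ 0 → Good (st j) := bk k798 g799
theorem g797 : ∀ j, 797 ≤ j → st j ≠ 0 → Good (st j) := bk k797 g798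
theorem g796 : ∀ j, 796 ≤ j → st j ≠ 0 → Good (st j) := bk k796 g797
theorem g795 : ∀ j, 795 ≤ j → st j ≠ 0 → Good (st j) := bk k795 g796
theorem g794 : ∀ j, 794 ≤ j → st j ≠ 0 → Good (st j) := bk k794 g795
theorem g793 : ∀ j, 793 ≤ j → st j ≠ 0 → Good (st j) := bk k793 g794
theorem g792 : ∀ j, 792 ≤ j → st j ≠ 0 → Good (st j) := bk k792 g793
theorem g791 : ∀ j, 791 ≤ j → st j ≠ 0 → Good (st j) := bk k791 g792
theorem g790 : ∀ j, 790 ≤ j → st j ≠ 0 → Good (st j) := bk k790 g791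
theorem g789 : ∀ j, 789 ≤ j → st j ≠ 0 → Good (st j) := bk k789 g790
theorem g788 : ∀ j, 788 ≤ j → st j ≠ 0 → Good (st j) := bk k788 g789
theorem g787 : ∀ j, 787 ≤ j → st j ≠ 0 → Good (st j) := bk k787 g788
theorem g786 : ∀ j, 786 ≤ j → st j ≠ 0 → Good (st j) := bk k786 g787
theorem g785 : ∀ j, 785 ≤ j → st j ≠ 0 → Good (st j) := bk k785 g786
theorem g784 : ∀ j, 784 ≤ j → st j ≠ 0 → Good (st j) := bk k784 g785
theorem g783 : ∀ j, 783 ≤ j → st j ≠ 0 → Good (st j) := bk k783 g784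
theorem g782 : ∀ j, 782 ≤ j → st j ≠ 0 → Good (st j) := bk k782 g783
theorem g781 : ∀ j, 781 ≤ j → st j ≠ 0 → Good (st j) := bk k781 g782
theorem g780 : ∀ j, 780 ≤ j → st j ≠ 0 → Good (st j) := bk k780 g781
theorem g779 : ∀ j, 779 ≤ j → st j ≠ 0 → Good (st j) := bk k779 g780
theorem g778 : ∀ j, 778 ≤ j → st j ≠ 0 → Good (st j) := bk k778 g779
theorem g777 : ∀ j, 777 ≤ j → st j ≠ 0 → Good (st j) := bk k777 g778
theorem g776 : ∀ j, 776 ≤ j → st j ≠ 0 → Good (st j) := bk k776 g777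
theorem g775 : ∀ j, 775 ≤ j → st j ≠ 0 → Good (st j) := bk k775 g776
theorem g774 : ∀ j, 774 ≤ j → st j ≠ 0 → Good (st j) := bk k774 g775
theorem g773 : ∀ j, 773 ≤ j → st j ≠ 0 → Good (st j) := bk k773 g774
theorem g772 : ∀ j, 772 ≤ j → st j ≠ 0 → Good (st j) := bk k772 g773
theorem g771 : ∀ j, 771 ≤ j → st j ≠ 0 → Good (st j) := bk k771 g772
theorem g770 : ∀ j, 770 ≤ j → st j ≠ 0 → Good (st j) := bk k770 g771
theorem g769 : ∀ j, 769 ≤ j → st j ≠ 0 → Good (st j) := bk k769 g770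
theorem g768 : ∀ j, 768 ≤ j → st j ≠ 0 → Good (st j) := bk k768 g769
theorem g767 : ∀ j, 767 ≤ j → st j ≠ 0 → Good (st j) := bk k767 g768
theorem g766 : ∀ j, 766 ≤ j → st j ≠ 0 → Good (st j) := bk k766 g767
theorem g765 : ∀ j, 765 ≤ j → st j ≠ 0 → Good (st j) := bk k765 g766
theorem g764 : ∀ j, 764 ≤ j → st j ≠ 0 → Good (st j) := bk k764 g765
theorem g763 : ∀ j, 763 ≤ j → st j ≠ 0 → Good (st j) := bk k763 g764
theorem g762 : ∀ j, 762 ≤ j → st j ≠ 0 → Good (st j) := bk k762 g763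
theorem g761 : ∀ j, 761 ≤ j → st j ≠ 0 → Good (st j) := bk k761 g762
theorem g760 : ∀ j, 760 ≤ j → st j ≠ 0 → Good (st j) := bk k760 g761
theorem g759 : ∀ j, 759 ≤ j → st j ≠ 0 → Good (st j) := bk k759 g760
theorem g758 : ∀ j, 758 ≤ j → st j ≠ 0 → Good (st j) := bk k758 g759
theorem g757 : ∀ j, 757 ≤ j → st j ≠ 0 → Good (st j) := bk k757 g758
theorem g756 : ∀ j, 756 ≤ j → st j ≠ 0 → Good (st j) := bk k756 g757
theorem g755 : ∀ j, 755 ≤ j → st j ≠ 0 → Good (st j) := bk k755 g756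
theorem g754 : ∀ j, 754 ≤ j → st j ≠ 0 → Good (st j) := bk k754 g755
theorem g753 : ∀ j, 753 ≤ j → st j ≠ 0 → Good (st j) := bk k753 g754
theorem g752 : ∀ j, 752 ≤ j → st j ≠ 0 → Good (st j) := bk k752 g753
theorem g751 : ∀ j, 751 ≤ j → st j ≠ 0 → Good (st j) := bk k751 g752
theorem g750 : ∀ j, 750 ≤ j → st j ≠ 0 → Good (st j) := bk k750 g751
theorem g749 : ∀ j, 749 ≤ j → st j ≠ 0 → Good (st j) := bk k749 g750
theorem g748 : ∀ j, 748 ≤ j → st j ≠ 0 → Good (st j) := bk k748 g749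
theorem g747 : ∀ j, 747 ≤ j → st j ≠ 0 → Good (st j) := bk k747 g748
theorem g746 : ∀ j, 746 ≤ j → st j ≠ 0 → Good (st j) := bk k746 g747
theorem g745 : ∀ j, 745 ≤ j → st j ≠ 0 → Good (st j) := bk k745 g746
theorem g744 : ∀ j, 744 ≤ j → st j ≠ 0 → Good (st j) := bk k744 g745
theorem g743 : ∀ j, 743 ≤ j → st j ≠ 0 → Good (st j) := bk k743 g744
theorem g742 : ∀ j, 742 ≤ j → st j ≠ 0 → Good (st j) := bk k742 g743
theorem g741 : ∀ j, 741 ≤ j → st j ≠ 0 → Good (st j) := bk k741 g742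
theorem g740 : ∀ j, 740 ≤ j → st j ≠ 0 → Good (st j) := bk k740 g741
theorem g739 : ∀ j, 739 ≤ j → st j ≠ 0 → Good (st j) := bk k739 g740
theorem g738 : ∀ j, 738 ≤ j → st j ≠ 0 → Good (st j) := bk k738 g739
theorem g737 : ∀ j, 737 ≤ j → st j ≠ 0 → Good (st j) := bk k737 g738
theorem g736 : ∀ j, 736 ≤ j → st j ≠ 0 → Good (st j) := bk k736 g737
theorem g735 : ∀ j, 735 ≤ j → st j ≠ 0 → Good (st j) := bk k735 g736
theorem g734 : ∀ j, 734 ≤ j → st j ≠ 0 → Good (st j) := bk k734 g735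
theorem g733 : ∀ j, 733 ≤ j → st j ≠ 0 → Good (st j) := bk k733 g734
theorem g732 : ∀ j, 732 ≤ j → st j ≠ 0 → Good (st j) := bk k732 g733
theorem g731 : ∀ j, 731 ≤ j → st j ≠ 0 → Good (st j) := bk k731 g732
theorem g730 : ∀ j, 730 ≤ j → st j ≠ 0 → Good (st j) := bk k730 g731
theorem g729 : ∀ j, 729 ≤ j → st j ≠ 0 → Good (st j) := bk k729 g730
theorem g728 : ∀ j, 728 ≤ j → st j ≠ 0 → Good (st j) := bk k728 g729
theorem g727 : ∀ j, 727 ≤ j → st j ≠ 0 → Good (st j) := bk k727 g728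
theorem g726 : ∀ j, 726 ≤ j → st j ≠ 0 → Good (st j) := bk k726 g727
theorem g725 : ∀ j, 725 ≤ j → st j ≠ 0 → Good (st j) := bk k725 g726
theorem g724 : ∀ j, 724 ≤ j → st j ≠ 0 → Good (st j) := bk k724 g725
theorem g723 : ∀ j, 723 ≤ j → st j ≠ 0 → Good (st j) := bk k723 g724
theorem g722 : ∀ j, 722 ≤ j → st j ≠ 0 → Good (st j) := bk k722 g723
theorem g721 : ∀ j, 721 ≤ j → st j ≠ 0 → Good (st j) := bk k721 g722
theorem g720 : ∀ j, 720 ≤ j → st j ≠ 0 → Good (st j) := bk k720 g721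
theorem g719 : ∀ j, 719 ≤ j → st j ≠ 0 → Good (st j) := bk k719 g720
theorem g718 : ∀ j, 718 ≤ j → st j ≠ 0 → Good (st j) := bk k718 g719
theorem g717 : ∀ j, 717 ≤ j → st j ≠ 0 → Good (st j) := bk k717 g718
theorem g716 : ∀ j, 716 ≤ j → st j ≠ 0 → Good (st j) := bk k716 g717
theorem g715 : ∀ j, 715 ≤ j → st j ≠ 0 → Good (st j) := bk k715 g716
theorem g714 : ∀ j, 714 ≤ j → st j ≠ 0 → Good (st j) := bk k714 g715
theorem g713 : ∀ j, 713 ≤ j → st j ≠ 0 → Good (st j) := bk k713 g714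
theorem g712 : ∀ j, 712 ≤ j → st j ≠ 0 → Good (st j) := bk k712 g713
theorem g711 : ∀ j, 711 ≤ j → st j ≠ 0 → Good (st j) := bk k711 g712
theorem g710 : ∀ j, 710 ≤ j → st j ≠ 0 → Good (st j) := bk k710 g711
theorem g709 : ∀ j, 709 ≤ j → st j ≠ 0 → Good (st j) := bk k709 g710
theorem g708 : ∀ j, 708 ≤ j → st j ≠ 0 → Good (st j) := bk k708 g709
theorem g707 : ∀ j, 707 ≤ j → st j ≠ 0 → Good (st j) := bk k707 g708
theorem g706 : ∀ j, 706 ≤ j → st j ≠ 0 → Good (st j) := bk k706 g707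
theorem g705 : ∀ j, 705 ≤ j → st j ≠ 0 → Good (st j) := bk k705 g706
theorem g704 : ∀ j, 704 ≤ j → st j ≠ 0 → Good (st j) := bk k704 g705
theorem g703 : ∀ j, 703 ≤ j → st j ≠ 0 → Good (st j) := bk k703 g704
theorem g702 : ∀ j, 702 ≤ j → st j ≠ 0 → Good (st j) := bk k702 g703
theorem g701 : ∀ j, 701 ≤ j → st j ≠ 0 → Good (st j) := bk k701 g702
theorem g700 : ∀ j, 700 ≤ j → st j ≠ 0 → Good (st j) := bk k700 g701
theorem g699 : ∀ j, 699 ≤ j → st j ≠ 0 → Good (st j) := bk k699 g700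
theorem g698 : ∀ j, 698 ≤ j → st j ≠ 0 → Good (st j) := bk k698 g699
theorem g697 : ∀ j, 697 ≤ j → st j ≠ 0 → Good (st j) := bk k697 g698
theorem g696 : ∀ j, 696 ≤ j → st j ≠ 0 → Good (st j) := bk k696 g697
theorem g695 : ∀ j, 695 ≤ j → st j ≠ 0 → Good (st j) := bk k695 g696
theorem g694 : ∀ j, 694 ≤ j → st j ≠ 0 → Good (st j) := bk k694 g695
theorem g693 : ∀ j, 693 ≤ j → st j ≠ 0 → Good (st j) := bk k693 g694
theorem g692 : ∀ j, 692 ≤ j → st j ≠ 0 → Good (st j) := bk k692 g693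
theorem g691 : ∀ j, 691 ≤ j → st j ≠ 0 → Good (st j) := bk k691 g692
theorem g690 : ∀ j, 690 ≤ j → st j ≠ 0 → Good (st j) := bk k690 g691
theorem g689 : ∀ j, 689 ≤ j → st j ≠ 0 → Good (st j) := bk k689 g690
theorem g688 : ∀ j, 688 ≤ j → st j ≠ 0 → Good (st j) := bk k688 g689
theorem g687 : ∀ j, 687 ≤ j → st j ≠ 0 → Good (st j) := bk k687 g688
theorem g686 : ∀ j, 686 ≤ j → st j ≠ 0 → Good (st j) := bk k686 g687
theorem g685 : ∀ j, 685 ≤ j → st j ≠ 0 → Good (st j) := bk k685 g686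
theorem g684 : ∀ j, 684 ≤ j → st j ≠ 0 → Good (st j) := bk k684 g685
theorem g683 : ∀ j, 683 ≤ j → st j ≠ 0 → Good (st j) := bk k683 g684
theorem g682 : ∀ j, 682 ≤ j → st j ≠ 0 → Good (st j) := bk k682 g683
theorem g681 : ∀ j, 681 ≤ j → st j ≠ 0 → Good (st j) := bk k681 g682
theorem g680 : ∀ j, 680 ≤ j → st j ≠ 0 → Good (st j) := bk k680 g681
theorem g679 : ∀ j, 679 ≤ j → st j ≠ 0 → Good (st j) := bk k679 g680
theorem g678 : ∀ j, 678 ≤ j → st j ≠ 0 → Good (st j) := bk k678 g679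
theorem g677 : ∀ j, 677 ≤ j → st j ≠ 0 → Good (st j) := bk k677 g678
theorem g676 : ∀ j, 676 ≤ j → st j ≠ 0 → Good (st j) := bk k676 g677
theorem g675 : ∀ j, 675 ≤ j → st j ≠ 0 → Good (st j) := bk k675 g676
theorem g674 : ∀ j, 674 ≤ j → st j ≠ 0 → Good (st j) := bk k674 g675
theorem g673 : ∀ j, 673 ≤ j → st j ≠ 0 → Good (st j) := bk k673 g674
theorem g672 : ∀ j, 672 ≤ j → st j ≠ 0 → Good (st j) := bk k672 g673
theorem g671 : ∀ j, 671 ≤ j → st j ≠ 0 → Good (st j) := bk k671 g672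
theorem g670 : ∀ j, 670 ≤ j → st j ≠ 0 → Good (st j) := bk k670 g671
theorem g669 : ∀ j, 669 ≤ j → st j ≠ 0 → Good (st j) := bk k669 g670
theorem g668 : ∀ j, 668 ≤ j → st j ≠ 0 → Good (st j) := bk k668 g669
theorem g667 : ∀ j, 667 ≤ j → st j ≠ 0 → Good (st j) := bk k667 g668
theorem g666 : ∀ j, 666 ≤ j → st j ≠ 0 → Good (st j) := bk k666 g667
theorem g665 : ∀ j, 665 ≤ j → st j ≠ 0 → Good (st j) := bk k665 g666
theorem g664 : ∀ j, 664 ≤ j → st j ≠ 0 → Good (st j) := bk k664 g665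
theorem g663 : ∀ j, 663 ≤ j → st j ≠ 0 → Good (st j) := bk k663 g664
theorem g662 : ∀ j, 662 ≤ j → st j ≠ 0 → Good (st j) := bk k662 g663
theorem g661 : ∀ j, 661 ≤ j → st j ≠ 0 → Good (st j) := bk k661 g662
theorem g660 : ∀ j, 660 ≤ j → st j ≠ 0 → Good (st j) := bk k660 g661
theorem g659 : ∀ j, 659 ≤ j → st j ≠ 0 → Good (st j) := bk k659 g660
theorem g658 : ∀ j, 658 ≤ j → st j ≠ 0 → Good (st j) := bk k658 g659
theorem g657 : ∀ j, 657 ≤ j → st j ≠ 0 → Good (st j) := bk k657 g658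
theorem g656 : ∀ j, 656 ≤ j → st j ≠ 0 → Good (st j) := bk k656 g657
theorem g655 : ∀ j, 655 ≤ j → st j ≠ 0 → Good (st j) := bk k655 g656
theorem g654 : ∀ j, 654 ≤ j → st j ≠ 0 → Good (st j) := bk k654 g655
theorem g653 : ∀ j, 653 ≤ j → st j ≠ 0 → Good (st j) := bk k653 g654
theorem g652 : ∀ j, 652 ≤ j → st j ≠ 0 → Good (st j) := bk k652 g653
theorem g651 : ∀ j, 651 ≤ j → st j ≠ 0 → Good (st j) := bk k651 g652
theorem g650 : ∀ j, 650 ≤ j → st j ≠ 0 → Good (st j) := bk k650 g651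
theorem g649 : ∀ j, 649 ≤ j → st j ≠ 0 → Good (st j) := bk k649 g650
theorem g648 : ∀ j, 648 ≤ j → st j ≠ 0 → Good (st j) := bk k648 g649
theorem g647 : ∀ j, 647 ≤ j → st j ≠ 0 → Good (st j) := bk k647 g648
theorem g646 : ∀ j, 646 ≤ j → st j ≠ 0 → Good (st j) := bk k646 g647
theorem g645 : ∀ j, 645 ≤ j → st j ≠ 0 → Good (st j) := bk k645 g646
theorem g644 : ∀ j, 644 ≤ j → st j ≠ 0 → Good (st j) := bk k644 g645
theorem g643 : ∀ j, 643 ≤ j → st j ≠ 0 → Good (st j) := bk k643 g644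
theorem g642 : ∀ j, 642 ≤ j → st j ≠ 0 → Good (st j) := bk k642 g643
theorem g641 : ∀ j, 641 ≤ j → st j ≠ 0 → Good (st j) := bk k641 g642
theorem g640 : ∀ j, 640 ≤ j → st j ≠ 0 → Good (st j) := bk k640 g641
theorem g639 : ∀ j, 639 ≤ j → st j ≠ 0 → Good (st j) := bk k639 g640
theorem g638 : ∀ j, 638 ≤ j → st j ≠ 0 → Good (st j) := bk k638 g639
theorem g637 : ∀ j, 637 ≤ j → st j ≠ 0 → Good (st j) := bk k637 g638
theorem g636 : ∀ j, 636 ≤ j → st j ≠ 0 → Good (st j) := bk k636 g637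
theorem g635 : ∀ j, 635 ≤ j → st j ≠ 0 → Good (st j) := bk k635 g636
theorem g634 : ∀ j, 634 ≤ j → st j ≠ 0 → Good (st j) := bk k634 g635
theorem g633 : ∀ j, 633 ≤ j → st j ≠ 0 → Good (st j) := bk k633 g634
theorem g632 : ∀ j, 632 ≤ j → st j ≠ 0 → Good (st j) := bk k632 g633
theorem g631 : ∀ j, 631 ≤ j → st j ≠ 0 → Good (st j) := bk k631 g632
theorem g630 : ∀ j, 630 ≤ j → st j ≠ 0 → Good (st j) := bk k630 g631
theorem g629 : ∀ j, 629 ≤ j → st j ≠ 0 → Good (st j) := bk k629 g630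
theorem g628 : ∀ j, 628 ≤ j → st j ≠ 0 → Good (st j) := bk k628 g629
theorem g627 : ∀ j, 627 ≤ j → st j ≠ 0 → Good (st j) := bk k627 g628
theorem g626 : ∀ j, 626 ≤ j → st j ≠ 0 → Good (st j) := bk k626 g627
theorem g625 : ∀ j, 625 ≤ j → st j ≠ 0 → Good (st j) := bk k625 g626
theorem g624 : ∀ j, 624 ≤ j → st j ≠ 0 → Good (st j) := bk k624 g625
theorem g623 : ∀ j, 623 ≤ j → st j ≠ 0 → Good (st j) := bk k623 g624
theorem g622 : ∀ j, 622 ≤ j → st j ≠ 0 → Good (st j) := bk k622 g623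
theorem g621 : ∀ j, 621 ≤ j → st j ≠ 0 → Good (st j) := bk k621 g622
theorem g620 : ∀ j, 620 ≤ j → st j ≠ 0 → Good (st j) := bk k620 g621
theorem g619 : ∀ j, 619 ≤ j → st j ≠ 0 → Good (st j) := bk k619 g620
theorem g618 : ∀ j, 618 ≤ j → st j ≠ 0 → Good (st j) := bk k618 g619
theorem g617 : ∀ j, 617 ≤ j → st j ≠ 0 → Good (st j) := bk k617 g618
theorem g616 : ∀ j, 616 ≤ j → st j ≠ 0 → Good (st j) := bk k616 g617
theorem g615 : ∀ j, 615 ≤ j → st j ≠ 0 → Good (st j) := bk k615 g616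
theorem g614 : ∀ j, 614 ≤ j → st j ≠ 0 → Good (st j) := bk k614 g615
theorem g613 : ∀ j, 613 ≤ j → st j ≠ 0 → Good (st j) := bk k613 g614
theorem g612 : ∀ j, 612 ≤ j → st j ≠ 0 → Good (st j) := bk k612 g613
theorem g611 : ∀ j, 611 ≤ j → st j ≠ 0 → Good (st j) := bk k611 g612
theorem g610 : ∀ j, 610 ≤ j → st j ≠ 0 → Good (st j) := bk k610 g611
theorem g609 : ∀ j, 609 ≤ j → st j ≠ 0 → Good (st j) := bk k609 g610
theorem g608 : ∀ j, 608 ≤ j → st j ≠ 0 → Good (st j) := bk k608 g609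
theorem g607 : ∀ j, 607 ≤ j → st j ≠ 0 → Good (st j) := bk k607 g608
theorem g606 : ∀ j, 606 ≤ j → st j ≠ 0 → Good (st j) := bk k606 g607
theorem g605 : ∀ j, 605 ≤ j → st j ≠ 0 → Good (st j) := bk k605 g606
theorem g604 : ∀ j, 604 ≤ j → st j ≠ 0 → Good (st j) := bk k604 g605
theorem g603 : ∀ j, 603 ≤ j → st j ≠ 0 → Good (st j) := bk k603 g604
theorem g602 : ∀ j, 602 ≤ j → st j ≠ 0 → Good (st j) := bk k602 g603
theorem g601 : ∀ j, 601 ≤ j → st j ≠ 0 → Good (st j) := bk k601 g602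
theorem g600 : ∀ j, 600 ≤ j → st j ≠ 0 → Good (st j) := bk k600 g601
theorem g599 : ∀ j, 599 ≤ j → st j ≠ 0 → Good (st j) := bk k599 g600
theorem g598 : ∀ j, 598 ≤ j → st j ≠ 0 → Good (st j) := bk k598 g599
theorem g597 : ∀ j, 597 ≤ j → st j ≠ 0 → Good (st j) := bk k597 g598
theorem g596 : ∀ j, 596 ≤ j → st j ≠ 0 → Good (st j) := bk k596 g597
theorem g595 : ∀ j, 595 ≤ j → st j ≠ 0 → Good (st j) := bk k595 g596
theorem g594 : ∀ j, 594 ≤ j → st j ≠ 0 → Good (st j) := bk k594 g595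
theorem g593 : ∀ j, 593 ≤ j → st j ≠ 0 → Good (st j) := bk k593 g594
theorem g592 : ∀ j, 592 ≤ j → st j ≠ 0 → Good (st j) := bk k592 g593
theorem g591 : ∀ j, 591 ≤ j → st j ≠ 0 → Good (st j) := bk k591 g592
theorem g590 : ∀ j, 590 ≤ j → st j ≠ 0 → Good (st j) := bk k590 g591
theorem g589 : ∀ j, 589 ≤ j → st j ≠ 0 → Good (st j) := bk k589 g590
theorem g588 : ∀ j, 588 ≤ j → st j ≠ 0 → Good (st j) := bk k588 g589
theorem g587 : ∀ j, 587 ≤ j → st j ≠ 0 → Good (st j) := bk k587 g588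
theorem g586 : ∀ j, 586 ≤ j → st j ≠ 0 → Good (st j) := bk k586 g587
theorem g585 : ∀ j, 585 ≤ j → st j ≠ 0 → Good (st j) := bk k585 g586
theorem g584 : ∀ j, 584 ≤ j → st j ≠ 0 → Good (st j) := bk k584 g585
theorem g583 : ∀ j, 583 ≤ j → st j ≠ 0 → Good (st j) := bk k583 g584
theorem g582 : ∀ j, 582 ≤ j → st j ≠ 0 → Good (st j) := bk k582 g583
theorem g581 : ∀ j, 581 ≤ j → st j ≠ 0 → Good (st j) := bk k581 g582
theorem g580 : ∀ j, 580 ≤ j → st j ≠ 0 → Good (st j) := bk k580 g581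
theorem g579 : ∀ j, 579 ≤ j → st j ≠ 0 → Good (st j) := bk k579 g580
theorem g578 : ∀ j, 578 ≤ j → st j ≠ 0 → Good (st j) := bk k578 g579
theorem g577 : ∀ j, 577 ≤ j → st j ≠ 0 → Good (st j) := bk k577 g578
theorem g576 : ∀ j, 576 ≤ j → st j ≠ 0 → Good (st j) := bk k576 g577
theorem g575 : ∀ j, 575 ≤ j → st j ≠ 0 → Good (st j) := bk k575 g576
theorem g574 : ∀ j, 574 ≤ j → st j ≠ 0 → Good (st j) := bk k574 g575
theorem g573 : ∀ j, 573 ≤ j → st j ≠ 0 → Good (st j) := bk k573 g574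
theorem g572 : ∀ j, 572 ≤ j → st j ≠ 0 → Good (st j) := bk k572 g573
theorem g571 : ∀ j, 571 ≤ j → st j ≠ 0 → Good (st j) := bk k571 g572
theorem g570 : ∀ j, 570 ≤ j → st j ≠ 0 → Good (st j) := bk k570 g571
theorem g569 : ∀ j, 569 ≤ j → st j ≠ 0 → Good (st j) := bk k569 g570
theorem g568 : ∀ j, 568 ≤ j → st j ≠ 0 → Good (st j) := bk k568 g569
theorem g567 : ∀ j, 567 ≤ j → st j ≠ 0 → Good (st j) := bk k567 g568
theorem g566 : ∀ j, 566 ≤ j → st j ≠ 0 → Good (st j) := bk k566 g567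
theorem g565 : ∀ j, 565 ≤ j → st j ≠ 0 → Good (st j) := bk k565 g566
theorem g564 : ∀ j, 564 ≤ j → st j ≠ 0 → Good (st j) := bk k564 g565
theorem g563 : ∀ j, 563 ≤ j → st j ≠ 0 → Good (st j) := bk k563 g564
theorem g562 : ∀ j, 562 ≤ j → st j ≠ 0 → Good (st j) := bk k562 g563
theorem g561 : ∀ j, 561 ≤ j → st j ≠ 0 → Good (st j) := bk k561 g562
theorem g560 : ∀ j, 560 ≤ j → st j ≠ 0 → Good (st j) := bk k560 g561
theorem g559 : ∀ j, 559 ≤ j → st j ≠ 0 → Good (st j) := bk k559 g560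
theorem g558 : ∀ j, 558 ≤ j → st j ≠ 0 → Good (st j) := bk k558 g559
theorem g557 : ∀ j, 557 ≤ j → st j ≠ 0 → Good (st j) := bk k557 g558
theorem g556 : ∀ j, 556 ≤ j → st j ≠ 0 → Good (st j) := bk k556 g557
theorem g555 : ∀ j, 555 ≤ j → st j ≠ 0 → Good (st j) := bk k555 g556
theorem g554 : ∀ j, 554 ≤ j → st j ≠ 0 → Good (st j) := bk k554 g555
theorem g553 : ∀ j, 553 ≤ j → st j ≠ 0 → Good (st j) := bk k553 g554
theorem g552 : ∀ j, 552 ≤ j → st j ≠ 0 → Good (st j) := bk k552 g553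
theorem g551 : ∀ j, 551 ≤ j → st j ≠ 0 → Good (st j) := bk k551 g552
theorem g550 : ∀ j, 550 ≤ j → st j ≠ 0 → Good (st j) := bk k550 g551
theorem g549 : ∀ j, 549 ≤ j → st j ≠ 0 → Good (st j) := bk k549 g550
theorem g548 : ∀ j, 548 ≤ j → st j ≠ 0 → Good (st j) := bk k548 g549
theorem g547 : ∀ j, 547 ≤ j → st j ≠ 0 → Good (st j) := bk k547 g548
theorem g546 : ∀ j, 546 ≤ j → st j ≠ 0 → Good (st j) := bk k546 g547
theorem g545 : ∀ j, 545 ≤ j → st j ≠ 0 → Good (st j) := bk k545 g546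
theorem g544 : ∀ j, 544 ≤ j → st j ≠ 0 → Good (st j) := bk k544 g545
theorem g543 : ∀ j, 543 ≤ j → st j ≠ 0 → Good (st j) := bk k543 g544
theorem g542 : ∀ j, 542 ≤ j → st j ≠ 0 → Good (st j) := bk k542 g543
theorem g541 : ∀ j, 541 ≤ j → st j ≠ 0 → Good (st j) := bk k541 g542
theorem g540 : ∀ j, 540 ≤ j → st j ≠ 0 → Good (st j) := bk k540 g541
theorem g539 : ∀ j, 539 ≤ j → st j ≠ 0 → Good (st j) := bk k539 g540
theorem g538 : ∀ j, 538 ≤ j → st j ≠ 0 → Good (st j) := bk k538 g539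
theorem g537 : ∀ j, 537 ≤ j → st j ≠ 0 → Good (st j) := bk k537 g538
theorem g536 : ∀ j, 536 ≤ j → st j ≠ 0 → Good (st j) := bk k536 g537
theorem g535 : ∀ j, 535 ≤ j → st j ≠ 0 → Good (st j) := bk k535 g536
theorem g534 : ∀ j, 534 ≤ j → st j ≠ 0 → Good (st j) := bk k534 g535
theorem g533 : ∀ j, 533 ≤ j → st j ≠ 0 → Good (st j) := bk k533 g534
theorem g532 : ∀ j, 532 ≤ j → st j ≠ 0 → Good (st j) := bk k532 g533
theorem g531 : ∀ j, 531 ≤ j → st j ≠ 0 → Good (st j) := bk k531 g532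
theorem g530 : ∀ j, 530 ≤ j → st j ≠ 0 → Good (st j) := bk k530 g531
theorem g529 : ∀ j, 529 ≤ j → st j ≠ 0 → Good (st j) := bk k529 g530
theorem g528 : ∀ j, 528 ≤ j → st j ≠ 0 → Good (st j) := bk k528 g529
theorem g527 : ∀ j, 527 ≤ j → st j ≠ 0 → Good (st j) := bk k527 g528
theorem g526 : ∀ j, 526 ≤ j → st j ≠ 0 → Good (st j) := bk k526 g527
theorem g525 : ∀ j, 525 ≤ j → st j ≠ 0 → Good (st j) := bk k525 g526
theorem g524 : ∀ j, 524 ≤ j → st j ≠ 0 → Good (st j) := bk k524 g525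
theorem g523 : ∀ j, 523 ≤ j → st j ≠ 0 → Good (st j) := bk k523 g524
theorem g522 : ∀ j, 522 ≤ j → st j ≠ 0 → Good (st j) := bk k522 g523
theorem g521 : ∀ j, 521 ≤ j → st j ≠ 0 → Good (st j) := bk k521 g522
theorem g520 : ∀ j, 520 ≤ j → st j ≠ 0 → Good (st j) := bk k520 g521
theorem g519 : ∀ j, 519 ≤ j → st j ≠ 0 → Good (st j) := bk k519 g520
theorem g518 : ∀ j, 518 ≤ j → st j ≠ 0 → Good (st j) := bk k518 g519
theorem g517 : ∀ j, 517 ≤ j → st j ≠ 0 → Good (st j) := bk k517 g518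
theorem g516 : ∀ j, 516 ≤ j → st j ≠ 0 → Good (st j) := bk k516 g517
theorem g515 : ∀ j, 515 ≤ j → st j ≠ 0 → Good (st j) := bk k515 g516
theorem g514 : ∀ j, 514 ≤ j → st j ≠ 0 → Good (st j) := bk k514 g515
theorem g513 : ∀ j, 513 ≤ j → st j ≠ 0 → Good (st j) := bk k513 g514
theorem g512 : ∀ j, 512 ≤ j → st j ≠ 0 → Good (st j) := bk k512 g513
theorem g511 : ∀ j, 511 ≤ j → st j ≠ 0 → Good (st j) := bk k511 g512
theorem g510 : ∀ j, 510 ≤ j → st j ≠ 0 → Good (st j) := bk k510 g511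
theorem g509 : ∀ j, 509 ≤ j → st j ≠ 0 → Good (st j) := bk k509 g510
theorem g508 : ∀ j, 508 ≤ j → st j ≠ 0 → Good (st j) := bk k508 g509
theorem g507 : ∀ j, 507 ≤ j → st j ≠ 0 → Good (st j) := bk k507 g508
theorem g506 : ∀ j, 506 ≤ j → st j ≠ 0 → Good (st j) := bk k506 g507
theorem g505 : ∀ j, 505 ≤ j → st j ≠ 0 → Good (st j) := bk k505 g506
theorem g504 : ∀ j, 504 ≤ j → st j ≠ 0 → Good (st j) := bk k504 g505
theorem g503 : ∀ j, 503 ≤ j → st j ≠ 0 → Good (st j) := bk k503 g504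
theorem g502 : ∀ j, 502 ≤ j → st j ≠ 0 → Good (st j) := bk k502 g503
theorem g501 : ∀ j, 501 ≤ j → st j ≠ 0 → Good (st j) := bk k501 g502
theorem g500 : ∀ j, 500 ≤ j → st j ≠ 0 → Good (st j) := bk k500 g501
theorem g499 : ∀ j, 499 ≤ j → st j ≠ 0 → Good (st j) := bk k499 g500
theorem g498 : ∀ j, 498 ≤ j → st j ≠ 0 → Good (st j) := bk k498 g499
theorem g497 : ∀ j, 497 ≤ j → st j ≠ 0 → Good (st j) := bk k497 g498
theorem g496 : ∀ j, 496 ≤ j → st j ≠ 0 → Good (st j) := bk k496 g497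
theorem g495 : ∀ j, 495 ≤ j → st j ≠ 0 → Good (st j) := bk k495 g496
theorem g494 : ∀ j, 494 ≤ j → st j ≠ 0 → Good (st j) := bk k494 g495
theorem g493 : ∀ j, 493 ≤ j → st j ≠ 0 → Good (st j) := bk k493 g494
theorem g492 : ∀ j, 492 ≤ j → st j ≠ 0 → Good (st j) := bk k492 g493
theorem g491 : ∀ j, 491 ≤ j → st j ≠ 0 → Good (st j) := bk k491 g492
theorem g490 : ∀ j, 490 ≤ j → st j ≠ 0 → Good (st j) := bk k490 g491
theorem g489 : ∀ j, 489 ≤ j → st j ≠ 0 → Good (st j) := bk k489 g490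
theorem g488 : ∀ j, 488 ≤ j → st j ≠ 0 → Good (st j) := bk k488 g489
theorem g487 : ∀ j, 487 ≤ j → st j ≠ 0 → Good (st j) := bk k487 g488
theorem g486 : ∀ j, 486 ≤ j → st j ≠ 0 → Good (st j) := bk k486 g487
theorem g485 : ∀ j, 485 ≤ j → st j ≠ 0 → Good (st j) := bk k485 g486
theorem g484 : ∀ j, 484 ≤ j → st j ≠ 0 → Good (st j) := bk k484 g485
theorem g483 : ∀ j, 483 ≤ j → st j ≠ 0 → Good (st j) := bk k483 g484
theorem g482 : ∀ j, 482 ≤ j → st j ≠ 0 → Good (st j) := bk k482 g483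
theorem g481 : ∀ j, 481 ≤ j → st j ≠ 0 → Good (st j) := bk k481 g482
theorem g480 : ∀ j, 480 ≤ j → st j ≠ 0 → Good (st j) := bk k480 g481
theorem g479 : ∀ j, 479 ≤ j → st j ≠ 0 → Good (st j) := bk k479 g480
theorem g478 : ∀ j, 478 ≤ j → st j ≠ 0 → Good (st j) := bk k478 g479
theorem g477 : ∀ j, 477 ≤ j → st j ≠ 0 → Good (st j) := bk k477 g478
theorem g476 : ∀ j, 476 ≤ j → st j ≠ 0 → Good (st j) := bk k476 g477
theorem g475 : ∀ j, 475 ≤ j → st j ≠ 0 → Good (st j) := bk k475 g476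
theorem g474 : ∀ j, 474 ≤ j → st j ≠ 0 → Good (st j) := bk k474 g475
theorem g473 : ∀ j, 473 ≤ j → st j ≠ 0 → Good (st j) := bk k473 g474
theorem g472 : ∀ j, 472 ≤ j → st j ≠ 0 → Good (st j) := bk k472 g473
theorem g471 : ∀ j, 471 ≤ j → st j ≠ 0 → Good (st j) := bk k471 g472
theorem g470 : ∀ j, 470 ≤ j → st j ≠ 0 → Good (st j) := bk k470 g471
theorem g469 : ∀ j, 469 ≤ j → st j ≠ 0 → Good (st j) := bk k469 g470
theorem g468 : ∀ j, 468 ≤ j → st j ≠ 0 → Good (st j) := bk k468 g469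
theorem g467 : ∀ j, 467 ≤ j → st j ≠ 0 → Good (st j) := bk k467 g468
theorem g466 : ∀ j, 466 ≤ j → st j ≠ 0 → Good (st j) := bk k466 g467
theorem g465 : ∀ j, 465 ≤ j → st j ≠ 0 → Good (st j) := bk k465 g466
theorem g464 : ∀ j, 464 ≤ j → st j ≠ 0 → Good (st j) := bk k464 g465
theorem g463 : ∀ j, 463 ≤ j → st j ≠ 0 → Good (st j) := bk k463 g464
theorem g462 : ∀ j, 462 ≤ j → st j ≠ 0 → Good (st j) := bk k462 g463
theorem g461 : ∀ j, 461 ≤ j → st j ≠ 0 → Good (st j) := bk k461 g462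
theorem g460 : ∀ j, 460 ≤ j → st j ≠ 0 → Good (st j) := bk k460 g461
theorem g459 : ∀ j, 459 ≤ j → st j ≠ 0 → Good (st j) := bk k459 g460
theorem g458 : ∀ j, 458 ≤ j → st j ≠ 0 → Good (st j) := bk k458 g459
theorem g457 : ∀ j, 457 ≤ j → st j ≠ 0 → Good (st j) := bk k457 g458
theorem g456 : ∀ j, 456 ≤ j → st j ≠ 0 → Good (st j) := bk k456 g457
theorem g455 : ∀ j, 455 ≤ j → st j ≠ 0 → Good (st j) := bk k455 g456
theorem g454 : ∀ j, 454 ≤ j → st j ≠ 0 → Good (st j) := bk k454 g455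
theorem g453 : ∀ j, 453 ≤ j → st j ≠ 0 → Good (st j) := bk k453 g454
theorem g452 : ∀ j, 452 ≤ j → st j ≠ 0 → Good (st j) := bk k452 g453
theorem g451 : ∀ j, 451 ≤ j → st j ≠ 0 → Good (st j) := bk k451 g452
theorem g450 : ∀ j, 450 ≤ j → st j ≠ 0 → Good (st j) := bk k450 g451
theorem g449 : ∀ j, 449 ≤ j → st j ≠ 0 → Good (st j) := bk k449 g450
theorem g448 : ∀ j, 448 ≤ j → st j ≠ 0 → Good (st j) := bk k448 g449
theorem g447 : ∀ j, 447 ≤ j → st j ≠ 0 → Good (st j) := bk k447 g448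
theorem g446 : ∀ j, 446 ≤ j → st j ≠ 0 → Good (st j) := bk k446 g447
theorem g445 : ∀ j, 445 ≤ j → st j ≠ 0 → Good (st j) := bk k445 g446
theorem g444 : ∀ j, 444 ≤ j → st j ≠ 0 → Good (st j) := bk k444 g445
theorem g443 : ∀ j, 443 ≤ j → st j ≠ 0 → Good (st j) := bk k443 g444
theorem g442 : ∀ j, 442 ≤ j → st j ≠ 0 → Good (st j) := bk k442 g443
theorem g441 : ∀ j, 441 ≤ j → st j ≠ 0 → Good (st j) := bk k441 g442
theorem g440 : ∀ j, 440 ≤ j → st j ≠ 0 → Good (st j) := bk k440 g441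
theorem g439 : ∀ j, 439 ≤ j → st j ≠ 0 → Good (st j) := bk k439 g440
theorem g438 : ∀ j, 438 ≤ j → st j ≠ 0 → Good (st j) := bk k438 g439
theorem g437 : ∀ j, 437 ≤ j → st j ≠ 0 → Good (st j) := bk k437 g438
theorem g436 : ∀ j, 436 ≤ j → st j ≠ 0 → Good (st j) := bk k436 g437
theorem g435 : ∀ j, 435 ≤ j → st j ≠ 0 → Good (st j) := bk k435 g436
theorem g434 : ∀ j, 434 ≤ j → st j ≠ 0 → Good (st j) := bk k434 g435
theorem g433 : ∀ j, 433 ≤ j → st j ≠ 0 → Good (st j) := bk k433 g434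
theorem g432 : ∀ j, 432 ≤ j → st j ≠ 0 → Good (st j) := bk k432 g433
theorem g431 : ∀ j, 431 ≤ j → st j ≠ 0 → Good (st j) := bk k431 g432
theorem g430 : ∀ j, 430 ≤ j → st j ≠ 0 → Good (st j) := bk k430 g431
theorem g429 : ∀ j, 429 ≤ j → st j ≠ 0 → Good (st j) := bk k429 g430
theorem g428 : ∀ j, 428 ≤ j → st j ≠ 0 → Good (st j) := bk k428 g429
theorem g427 : ∀ j, 427 ≤ j → st j ≠ 0 → Good (st j) := bk k427 g428
theorem g426 : ∀ j, 426 ≤ j → st j ≠ 0 → Good (st j) := bk k426 g427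
theorem g425 : ∀ j, 425 ≤ j → st j ≠ 0 → Good (st j) := bk k425 g426
theorem g424 : ∀ j, 424 ≤ j → st j ≠ 0 → Good (st j) := bk k424 g425
theorem g423 : ∀ j, 423 ≤ j → st j ≠ 0 → Good (st j) := bk k423 g424
theorem g422 : ∀ j, 422 ≤ j → st j ≠ 0 → Good (st j) := bk k422 g423
theorem g421 : ∀ j, 421 ≤ j → st j ≠ 0 → Good (st j) := bk k421 g422
theorem g420 : ∀ j, 420 ≤ j → st j ≠ 0 → Good (st j) := bk k420 g421
theorem g419 : ∀ j, 419 ≤ j → st j ≠ 0 → Good (st j) := bk k419 g420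
theorem g418 : ∀ j, 418 ≤ j → st j ≠ 0 → Good (st j) := bk k418 g419
theorem g417 : ∀ j, 417 ≤ j → st j ≠ 0 → Good (st j) := bk k417 g418
theorem g416 : ∀ j, 416 ≤ j → st j ≠ 0 → Good (st j) := bk k416 g417
theorem g415 : ∀ j, 415 ≤ j → st j ≠ 0 → Good (st j) := bk k415 g416
theorem g414 : ∀ j, 414 ≤ j → st j ≠ 0 → Good (st j) := bk k414 g415
theorem g413 : ∀ j, 413 ≤ j → st j ≠ 0 → Good (st j) := bk k413 g414
theorem g412 : ∀ j, 412 ≤ j → st j ≠ 0 → Good (st j) := bk k412 g413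
theorem g411 : ∀ j, 411 ≤ j → st j ≠ 0 → Good (st j) := bk k411 g412
theorem g410 : ∀ j, 410 ≤ j → st j ≠ 0 → Good (st j) := bk k410 g411
theorem g409 : ∀ j, 409 ≤ j → st j ≠ 0 → Good (st j) := bk k409 g410
theorem g408 : ∀ j, 408 ≤ j → st j ≠ 0 → Good (st j) := bk k408 g409
theorem g407 : ∀ j, 407 ≤ j → st j ≠ 0 → Good (st j) := bk k407 g408
theorem g406 : ∀ j, 406 ≤ j → st j ≠ 0 → Good (st j) := bk k406 g407
theorem g405 : ∀ j, 405 ≤ j → st j ≠ 0 → Good (st j) := bk k405 g406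
theorem g404 : ∀ j, 404 ≤ j → st j ≠ 0 → Good (st j) := bk k404 g405
theorem g403 : ∀ j, 403 ≤ j → st j ≠ 0 → Good (st j) := bk k403 g404
theorem g402 : ∀ j, 402 ≤ j → st j ≠ 0 → Good (st j) := bk k402 g403
theorem g401 : ∀ j, 401 ≤ j → st j ≠ 0 → Good (st j) := bk k401 g402
theorem g400 : ∀ j, 400 ≤ j → st j ≠ 0 → Good (st j) := bk k400 g401
theorem g399 : ∀ j, 399 ≤ j → st j ≠ 0 → Good (st j) := bk k399 g400
theorem g398 : ∀ j, 398 ≤ j → st j ≠ 0 → Good (st j) := bk k398 g399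
theorem g397 : ∀ j, 397 ≤ j → st j ≠ 0 → Good (st j) := bk k397 g398
theorem g396 : ∀ j, 396 ≤ j → st j ≠ 0 → Good (st j) := bk k396 g397
theorem g395 : ∀ j, 395 ≤ j → st j ≠ 0 → Good (st j) := bk k395 g396
theorem g394 : ∀ j, 394 ≤ j → st j ≠ 0 → Good (st j) := bk k394 g395
theorem g393 : ∀ j, 393 ≤ j → st j ≠ 0 → Good (st j) := bk k393 g394
theorem g392 : ∀ j, 392 ≤ j → st j ≠ 0 → Good (st j) := bk k392 g393
theorem g391 : ∀ j, 391 ≤ j → st j ≠ 0 → Good (st j) := bk k391 g392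
theorem g390 : ∀ j, 390 ≤ j → st j ≠ 0 → Good (st j) := bk k390 g391
theorem g389 : ∀ j, 389 ≤ j → st j ≠ 0 → Good (st j) := bk k389 g390
theorem g388 : ∀ j, 388 ≤ j → st j ≠ 0 → Good (st j) := bk k388 g389
theorem g387 : ∀ j, 387 ≤ j → st j ≠ 0 → Good (st j) := bk k387 g388
theorem g386 : ∀ j, 386 ≤ j → st j ≠ 0 → Good (st j) := bk k386 g387
theorem g385 : ∀ j, 385 ≤ j → st j ≠ 0 → Good (st j) := bk k385 g386
theorem g384 : ∀ j, 384 ≤ j → st j ≠ 0 → Good (st j) := bk k384 g385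
theorem g383 : ∀ j, 383 ≤ j → st j ≠ 0 → Good (st j) := bk k383 g384
theorem g382 : ∀ j, 382 ≤ j → st j ≠ 0 → Good (st j) := bk k382 g383
theorem g381 : ∀ j, 381 ≤ j → st j ≠ 0 → Good (st j) := bk k381 g382
theorem g380 : ∀ j, 380 ≤ j → st j ≠ 0 → Good (st j) := bk k380 g381
theorem g379 : ∀ j, 379 ≤ j → st j ≠ 0 → Good (st j) := bk k379 g380
theorem g378 : ∀ j, 378 ≤ j → st j ≠ 0 → Good (st j) := bk k378 g379
theorem g377 : ∀ j, 377 ≤ j → st j ≠ 0 → Good (st j) := bk k377 g378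
theorem g376 : ∀ j, 376 ≤ j → st j ≠ 0 → Good (st j) := bk k376 g377
theorem g375 : ∀ j, 375 ≤ j → st j ≠ 0 → Good (st j) := bk k375 g376
theorem g374 : ∀ j, 374 ≤ j → st j ≠ 0 → Good (st j) := bk k374 g375
theorem g373 : ∀ j, 373 ≤ j → st j ≠ 0 → Good (st j) := bk k373 g374
theorem g372 : ∀ j, 372 ≤ j → st j ≠ 0 → Good (st j) := bk k372 g373
theorem g371 : ∀ j, 371 ≤ j → st j ≠ 0 → Good (st j) := bk k371 g372
theorem g370 : ∀ j, 370 ≤ j → st j ≠ 0 → Good (st j) := bk k370 g371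
theorem g369 : ∀ j, 369 ≤ j → st j ≠ 0 → Good (st j) := bk k369 g370
theorem g368 : ∀ j, 368 ≤ j → st j ≠ 0 → Good (st j) := bk k368 g369
theorem g367 : ∀ j, 367 ≤ j → st j ≠ 0 → Good (st j) := bk k367 g368
theorem g366 : ∀ j, 366 ≤ j → st j ≠ 0 → Good (st j) := bk k366 g367
theorem g365 : ∀ j, 365 ≤ j → st j ≠ 0 → Good (st j) := bk k365 g366
theorem g364 : ∀ j, 364 ≤ j → st j ≠ 0 → Good (st j) := bk k364 g365
theorem g363 : ∀ j, 363 ≤ j → st j ≠ 0 → Good (st j) := bk k363 g364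
theorem g362 : ∀ j, 362 ≤ j → st j ≠ 0 → Good (st j) := bk k362 g363
theorem g361 : ∀ j, 361 ≤ j → st j ≠ 0 → Good (st j) := bk k361 g362
theorem g360 : ∀ j, 360 ≤ j → st j ≠ 0 → Good (st j) := bk k360 g361
theorem g359 : ∀ j, 359 ≤ j → st j ≠ 0 → Good (st j) := bk k359 g360
theorem g358 : ∀ j, 358 ≤ j → st j ≠ 0 → Good (st j) := bk k358 g359
theorem g357 : ∀ j, 357 ≤ j → st j ≠ 0 → Good (st j) := bk k357 g358
theorem g356 : ∀ j, 356 ≤ j → st j ≠ 0 → Good (st j) := bk k356 g357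
theorem g355 : ∀ j, 355 ≤ j → st j ≠ 0 → Good (st j) := bk k355 g356
theorem g354 : ∀ j, 354 ≤ j → st j ≠ 0 → Good (st j) := bk k354 g355
theorem g353 : ∀ j, 353 ≤ j → st j ≠ 0 → Good (st j) := bk k353 g354
theorem g352 : ∀ j, 352 ≤ j → st j ≠ 0 → Good (st j) := bk k352 g353
theorem g351 : ∀ j, 351 ≤ j → st j ≠ 0 → Good (st j) := bk k351 g352
theorem g350 : ∀ j, 350 ≤ j → st j ≠ 0 → Good (st j) := bk k350 g351
theorem g349 : ∀ j, 349 ≤ j → st j ≠ 0 → Good (st j) := bk k349 g350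
theorem g348 : ∀ j, 348 ≤ j → st j ≠ 0 → Good (st j) := bk k348 g349
theorem g347 : ∀ j, 347 ≤ j → st j ≠ 0 → Good (st j) := bk k347 g348
theorem g346 : ∀ j, 346 ≤ j → st j ≠ 0 → Good (st j) := bk k346 g347
theorem g345 : ∀ j, 345 ≤ j → st j ≠ 0 → Good (st j) := bk k345 g346
theorem g344 : ∀ j, 344 ≤ j → st j ≠ 0 → Good (st j) := bk k344 g345
theorem g343 : ∀ j, 343 ≤ j → st j ≠ 0 → Good (st j) := bk k343 g344
theorem g342 : ∀ j, 342 ≤ j → st j ≠ 0 → Good (st j) := bk k342 g343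
theorem g341 : ∀ j, 341 ≤ j → st j ≠ 0 → Good (st j) := bk k341 g342
theorem g340 : ∀ j, 340 ≤ j → st j ≠ 0 → Good (st j) := bk k340 g341
theorem g339 : ∀ j, 339 ≤ j → st j ≠ 0 → Good (st j) := bk k339 g340
theorem g338 : ∀ j, 338 ≤ j → st j ≠ 0 → Good (st j) := bk k338 g339
theorem g337 : ∀ j, 337 ≤ j → st j ≠ 0 → Good (st j) := bk k337 g338
theorem g336 : ∀ j, 336 ≤ j → st j ≠ 0 → Good (st j) := bk k336 g337
theorem g335 : ∀ j, 335 ≤ j → st j ≠ 0 → Good (st j) := bk k335 g336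
theorem g334 : ∀ j, 334 ≤ j → st j ≠ 0 → Good (st j) := bk k334 g335
theorem g333 : ∀ j, 333 ≤ j → st j ≠ 0 → Good (st j) := bk k333 g334
theorem g332 : ∀ j, 332 ≤ j → st j ≠ 0 → Good (st j) := bk k332 g333
theorem g331 : ∀ j, 331 ≤ j → st j ≠ 0 → Good (st j) := bk k331 g332
theorem g330 : ∀ j, 330 ≤ j → st j ≠ 0 → Good (st j) := bk k330 g331
theorem g329 : ∀ j, 329 ≤ j → st j ≠ 0 → Good (st j) := bk k329 g330
theorem g328 : ∀ j, 328 ≤ j → st j ≠ 0 → Good (st j) := bk k328 g329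
theorem g327 : ∀ j, 327 ≤ j → st j ≠ 0 → Good (st j) := bk k327 g328
theorem g326 : ∀ j, 326 ≤ j → st j ≠ 0 → Good (st j) := bk k326 g327
theorem g325 : ∀ j, 325 ≤ j → st j ≠ 0 → Good (st j) := bk k325 g326
theorem g324 : ∀ j, 324 ≤ j → st j ≠ 0 → Good (st j) := bk k324 g325
theorem g323 : ∀ j, 323 ≤ j → st j ≠ 0 → Good (st j) := bk k323 g324
theorem g322 : ∀ j, 322 ≤ j → st j ≠ 0 → Good (st j) := bk k322 g323
theorem g321 : ∀ j, 321 ≤ j → st j ≠ 0 → Good (st j) := bk k321 g322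
theorem g320 : ∀ j, 320 ≤ j → st j ≠ 0 → Good (st j) := bk k320 g321
theorem g319 : ∀ j, 319 ≤ j → st j ≠ 0 → Good (st j) := bk k319 g320
theorem g318 : ∀ j, 318 ≤ j → st j ≠ 0 → Good (st j) := bk k318 g319
theorem g317 : ∀ j, 317 ≤ j → st j ≠ 0 → Good (st j) := bk k317 g318
theorem g316 : ∀ j, 316 ≤ j → st j ≠ 0 → Good (st j) := bk k316 g317
theorem g315 : ∀ j, 315 ≤ j → st j ≠ 0 → Good (st j) := bk k315 g316
theorem g314 : ∀ j, 314 ≤ j → st j ≠ 0 → Good (st j) := bk k314 g315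
theorem g313 : ∀ j, 313 ≤ j → st j ≠ 0 → Good (st j) := bk k313 g314
theorem g312 : ∀ j, 312 ≤ j → st j ≠ 0 → Good (st j) := bk k312 g313
theorem g311 : ∀ j, 311 ≤ j → st j ≠ 0 → Good (st j) := bk k311 g312
theorem g310 : ∀ j, 310 ≤ j → st j ≠ 0 → Good (st j) := bk k310 g311
theorem g309 : ∀ j, 309 ≤ j → st j ≠ 0 → Good (st j) := bk k309 g310
theorem g308 : ∀ j, 308 ≤ j → st j ≠ 0 → Good (st j) := bk k308 g309
theorem g307 : ∀ j, 307 ≤ j → st j ≠ 0 → Good (st j) := bk k307 g308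
theorem g306 : ∀ j, 306 ≤ j → st j ≠ 0 → Good (st j) := bk k306 g307
theorem g305 : ∀ j, 305 ≤ j → st j ≠ 0 → Good (st j) := bk k305 g306
theorem g304 : ∀ j, 304 ≤ j → st j ≠ 0 → Good (st j) := bk k304 g305
theorem g303 : ∀ j, 303 ≤ j → st j ≠ 0 → Good (st j) := bk k303 g304
theorem g302 : ∀ j, 302 ≤ j → st j ≠ 0 → Good (st j) := bk k302 g303
theorem g301 : ∀ j, 301 ≤ j → st j ≠ 0 → Good (st j) := bk k301 g302
theorem g300 : ∀ j, 300 ≤ j → st j ≠ 0 → Good (st j) := bk k300 g301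
theorem g299 : ∀ j, 299 ≤ j → st j ≠ 0 → Good (st j) := bk k299 g300
theorem g298 : ∀ j, 298 ≤ j → st j ≠ 0 → Good (st j) := bk k298 g299
theorem g297 : ∀ j, 297 ≤ j → st j ≠ 0 → Good (st j) := bk k297 g298
theorem g296 : ∀ j, 296 ≤ j → st j ≠ 0 → Good (st j) := bk k296 g297
theorem g295 : ∀ j, 295 ≤ j → st j ≠ 0 → Good (st j) := bk k295 g296
theorem g294 : ∀ j, 294 ≤ j → st j ≠ 0 → Good (st j) := bk k294 g295
theorem g293 : ∀ j, 293 ≤ j → st j ≠ 0 → Good (st j) := bk k293 g294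
theorem g292 : ∀ j, 292 ≤ j → st j ≠ 0 → Good (st j) := bk k292 g293
theorem g291 : ∀ j, 291 ≤ j → st j ≠ 0 → Good (st j) := bk k291 g292
theorem g290 : ∀ j, 290 ≤ j → st j ≠ 0 → Good (st j) := bk k290 g291
theorem g289 : ∀ j, 289 ≤ j → st j ≠ 0 → Good (st j) := bk k289 g290
theorem g288 : ∀ j, 288 ≤ j → st j ≠ 0 → Good (st j) := bk k288 g289
theorem g287 : ∀ j, 287 ≤ j → st j ≠ 0 → Good (st j) := bk k287 g288
theorem g286 : ∀ j, 286 ≤ j → st j ≠ 0 → Good (st j) := bk k286 g287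
theorem g285 : ∀ j, 285 ≤ j → st j ≠ 0 → Good (st j) := bk k285 g286
theorem g284 : ∀ j, 284 ≤ j → st j ≠ 0 → Good (st j) := bk k284 g285
theorem g283 : ∀ j, 283 ≤ j → st j ≠ 0 → Good (st j) := bk k283 g284
theorem g282 : ∀ j, 282 ≤ j → st j ≠ 0 → Good (st j) := bk k282 g283
theorem g281 : ∀ j, 281 ≤ j → st j ≠ 0 → Good (st j) := bk k281 g282
theorem g280 : ∀ j, 280 ≤ j → st j ≠ 0 → Good (st j) := bk k280 g281
theorem g279 : ∀ j, 279 ≤ j → st j ≠ 0 → Good (st j) := bk k279 g280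
theorem g278 : ∀ j, 278 ≤ j → st j ≠ 0 → Good (st j) := bk k278 g279
theorem g277 : ∀ j, 277 ≤ j → st j ≠ 0 → Good (st j) := bk k277 g278
theorem g276 : ∀ j, 276 ≤ j → st j ≠ 0 → Good (st j) := bk k276 g277
theorem g275 : ∀ j, 275 ≤ j → st j ≠ 0 → Good (st j) := bk k275 g276
theorem g274 : ∀ j, 274 ≤ j → st j ≠ 0 → Good (st j) := bk k274 g275
theorem g273 : ∀ j, 273 ≤ j → st j ≠ 0 → Good (st j) := bk k273 g274
theorem g272 : ∀ j, 272 ≤ j → st j ≠ 0 → Good (st j) := bk k272 g273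
theorem g271 : ∀ j, 271 ≤ j → st j ≠ 0 → Good (st j) := bk k271 g272
theorem g270 : ∀ j, 270 ≤ j → st j ≠ 0 → Good (st j) := bk k270 g271
theorem g269 : ∀ j, 269 ≤ j → st j ≠ 0 → Good (st j) := bk k269 g270
theorem g268 : ∀ j, 268 ≤ j → st j ≠ 0 → Good (st j) := bk k268 g269
theorem g267 : ∀ j, 267 ≤ j → st j ≠ 0 → Good (st j) := bk k267 g268
theorem g266 : ∀ j, 266 ≤ j → st j ≠ 0 → Good (st j) := bk k266 g267
theorem g265 : ∀ j, 265 ≤ j → st j ≠ 0 → Good (st j) := bk k265 g266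
theorem g264 : ∀ j, 264 ≤ j → st j ≠ 0 → Good (st j) := bk k264 g265
theorem g263 : ∀ j, 263 ≤ j → st j ≠ 0 → Good (st j) := bk k263 g264
theorem g262 : ∀ j, 262 ≤ j → st j ≠ 0 → Good (st j) := bk k262 g263
theorem g261 : ∀ j, 261 ≤ j → st j ≠ 0 → Good (st j) := bk k261 g262
theorem g260 : ∀ j, 260 ≤ j → st j ≠ 0 → Good (st j) := bk k260 g261
theorem g259 : ∀ j, 259 ≤ j → st j ≠ 0 → Good (st j) := bk k259 g260
theorem g258 : ∀ j, 258 ≤ j → st j ≠ 0 → Good (st j) := bk k258 g259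
theorem g257 : ∀ j, 257 ≤ j → st j ≠ 0 → Good (st j) := bk k257 g258
theorem g256 : ∀ j, 256 ≤ j → st j ≠ 0 → Good (st j) := bk k256 g257
theorem g255 : ∀ j, 255 ≤ j → st j ≠ 0 → Good (st j) := bk k255 g256
theorem g254 : ∀ j, 254 ≤ j → st j ≠ 0 → Good (st j) := bk k254 g255
theorem g253 : ∀ j, 253 ≤ j → st j ≠ 0 → Good (st j) := bk k253 g254
theorem g252 : ∀ j, 252 ≤ j → st j ≠ 0 → Good (st j) := bk k252 g253
theorem g251 : ∀ j, 251 ≤ j → st j ≠ 0 → Good (st j) := bk k251 g252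
theorem g250 : ∀ j, 250 ≤ j → st j ≠ 0 → Good (st j) := bk k250 g251
theorem g249 : ∀ j, 249 ≤ j → st j ≠ 0 → Good (st j) := bk k249 g250
theorem g248 : ∀ j, 248 ≤ j → st j ≠ 0 → Good (st j) := bk k248 g249
theorem g247 : ∀ j, 247 ≤ j → st j ≠ 0 → Good (st j) := bk k247 g248
theorem g246 : ∀ j, 246 ≤ j → st j ≠ 0 → Good (st j) := bk k246 g247
theorem g245 : ∀ j, 245 ≤ j → st j ≠ 0 → Good (st j) := bk k245 g246
theorem g244 : ∀ j, 244 ≤ j → st j ≠ 0 → Good (st j) := bk k244 g245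
theorem g243 : ∀ j, 243 ≤ j → st j ≠ 0 → Good (st j) := bk k243 g244
theorem g242 : ∀ j, 242 ≤ j → st j ≠ 0 → Good (st j) := bk k242 g243
theorem g241 : ∀ j, 241 ≤ j → st j ≠ 0 → Good (st j) := bk k241 g242
theorem g240 : ∀ j, 240 ≤ j → st j ≠ 0 → Good (st j) := bk k240 g241
theorem g239 : ∀ j, 239 ≤ j → st j ≠ 0 → Good (st j) := bk k239 g240
theorem g238 : ∀ j, 238 ≤ j → st j ≠ 0 → Good (st j) := bk k238 g239
theorem g237 : ∀ j, 237 ≤ j → st j ≠ 0 → Good (st j) := bk k237 g238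
theorem g236 : ∀ j, 236 ≤ j → st j ≠ 0 → Good (st j) := bk k236 g237
theorem g235 : ∀ j, 235 ≤ j → st j ≠ 0 → Good (st j) := bk k235 g236
theorem g234 : ∀ j, 234 ≤ j → st j ≠ 0 → Good (st j) := bk k234 g235
theorem g233 : ∀ j, 233 ≤ j → st j ≠ 0 → Good (st j) := bk k233 g234
theorem g232 : ∀ j, 232 ≤ j → st j ≠ 0 → Good (st j) := bk k232 g233
theorem g231 : ∀ j, 231 ≤ j → st j ≠ 0 → Good (st j) := bk k231 g232
theorem g230 : ∀ j, 230 ≤ j → st j ≠ 0 → Good (st j) := bk k230 g231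
theorem g229 : ∀ j, 229 ≤ j → st j ≠ 0 → Good (st j) := bk k229 g230
theorem g228 : ∀ j, 228 ≤ j → st j ≠ 0 → Good (st j) := bk k228 g229
theorem g227 : ∀ j, 227 ≤ j → st j ≠ 0 → Good (st j) := bk k227 g228
theorem g226 : ∀ j, 226 ≤ j → st j ≠ 0 → Good (st j) := bk k226 g227
theorem g225 : ∀ j, 225 ≤ j → st j ≠ 0 → Good (st j) := bk k225 g226
theorem g224 : ∀ j, 224 ≤ j → st j ≠ 0 → Good (st j) := bk k224 g225
theorem g223 : ∀ j, 223 ≤ j → st j ≠ 0 → Good (st j) := bk k223 g224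
theorem g222 : ∀ j, 222 ≤ j → st j ≠ 0 → Good (st j) := bk k222 g223
theorem g221 : ∀ j, 221 ≤ j → st j ≠ 0 → Good (st j) := bk k221 g222
theorem g220 : ∀ j, 220 ≤ j → st j ≠ 0 → Good (st j) := bk k220 g221
theorem g219 : ∀ j, 219 ≤ j → st j ≠ 0 → Good (st j) := bk k219 g220
theorem g218 : ∀ j, 218 ≤ j → st j ≠ 0 → Good (st j) := bk k218 g219
theorem g217 : ∀ j, 217 ≤ j → st j ≠ 0 → Good (st j) := bk k217 g218
theorem g216 : ∀ j, 216 ≤ j → st j ≠ 0 → Good (st j) := bk k216 g217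
theorem g215 : ∀ j, 215 ≤ j → st j ≠ 0 → Good (st j) := bk k215 g216
theorem g214 : ∀ j, 214 ≤ j → st j ≠ 0 → Good (st j) := bk k214 g215
theorem g213 : ∀ j, 213 ≤ j → st j ≠ 0 → Good (st j) := bk k213 g214
theorem g212 : ∀ j, 212 ≤ j → st j ≠ 0 → Good (st j) := bk k212 g213
theorem g211 : ∀ j, 211 ≤ j → st j ≠ 0 → Good (st j) := bk k211 g212
theorem g210 : ∀ j, 210 ≤ j → st j ≠ 0 → Good (st j) := bk k210 g211
theorem g209 : ∀ j, 209 ≤ j → st j ≠ 0 → Good (st j) := bk k209 g210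
theorem g208 : ∀ j, 208 ≤ j → st j ≠ 0 → Good (st j) := bk k208 g209
theorem g207 : ∀ j, 207 ≤ j → st j ≠ 0 → Good (st j) := bk k207 g208
theorem g206 : ∀ j, 206 ≤ j → st j ≠ 0 → Good (st j) := bk k206 g207
theorem g205 : ∀ j, 205 ≤ j → st j ≠ 0 → Good (st j) := bk k205 g206
theorem g204 : ∀ j, 204 ≤ j → st j ≠ 0 → Good (st j) := bk k204 g205
theorem g203 : ∀ j, 203 ≤ j → st j ≠ 0 → Good (st j) := bk k203 g204
theorem g202 : ∀ j, 202 ≤ j → st j ≠ 0 → Good (st j) := bk k202 g203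
theorem g201 : ∀ j, 201 ≤ j → st j ≠ 0 → Good (st j) := bk k201 g202
theorem g200 : ∀ j, 200 ≤ j → st j ≠ 0 → Good (st j) := bk k200 g201
theorem g199 : ∀ j, 199 ≤ j → st j ≠ 0 → Good (st j) := bk k199 g200
theorem g198 : ∀ j, 198 ≤ j → st j ≠ 0 → Good (st j) := bk k198 g199
theorem g197 : ∀ j, 197 ≤ j → st j ≠ 0 → Good (st j) := bk k197 g198
theorem g196 : ∀ j, 196 ≤ j → st j ≠ 0 → Good (st j) := bk k196 g197
theorem g195 : ∀ j, 195 ≤ j → st j ≠ 0 → Good (st j) := bk k195 g196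
theorem g194 : ∀ j, 194 ≤ j → st j ≠ 0 → Good (st j) := bk k194 g195
theorem g193 : ∀ j, 193 ≤ j → st j ≠ 0 → Good (st j) := bk k193 g194
theorem g192 : ∀ j, 192 ≤ j → st j ≠ 0 → Good (st j) := bk k192 g193
theorem g191 : ∀ j, 191 ≤ j → st j ≠ 0 → Good (st j) := bk k191 g192
theorem g190 : ∀ j, 190 ≤ j → st j ≠ 0 → Good (st j) := bk k190 g191
theorem g189 : ∀ j, 189 ≤ j → st j ≠ 0 → Good (st j) := bk k189 g190
theorem g188 : ∀ j, 188 ≤ j → st j ≠ 0 → Good (st j) := bk k188 g189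
theorem g187 : ∀ j, 187 ≤ j → st j ≠ 0 → Good (st j) := bk k187 g188
theorem g186 : ∀ j, 186 ≤ j → st j ≠ 0 → Good (st j) := bk k186 g187
theorem g185 : ∀ j, 185 ≤ j → st j ≠ 0 → Good (st j) := bk k185 g186
theorem g184 : ∀ j, 184 ≤ j → st j ≠ 0 → Good (st j) := bk k184 g185
theorem g183 : ∀ j, 183 ≤ j → st j ≠ 0 → Good (st j) := bk k183 g184
theorem g182 : ∀ j, 182 ≤ j → st j ≠ 0 → Good (st j) := bk k182 g183
theorem g181 : ∀ j, 181 ≤ j → st j ≠ 0 → Good (st j) := bk k181 g182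
theorem g180 : ∀ j, 180 ≤ j → st j ≠ 0 → Good (st j) := bk k180 g181
theorem g179 : ∀ j, 179 ≤ j → st j ≠ 0 → Good (st j) := bk k179 g180
theorem g178 : ∀ j, 178 ≤ j → st j ≠ 0 → Good (st j) := bk k178 g179
theorem g177 : ∀ j, 177 ≤ j → st j ≠ 0 → Good (st j) := bk k177 g178
theorem g176 : ∀ j, 176 ≤ j → st j ≠ 0 → Good (st j) := bk k176 g177
theorem g175 : ∀ j, 175 ≤ j → st j ≠ 0 → Good (st j) := bk k175 g176
theorem g174 : ∀ j, 174 ≤ j → st j ≠ 0 → Good (st j) := bk k174 g175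
theorem g173 : ∀ j, 173 ≤ j → st j ≠ 0 → Good (st j) := bk k173 g174
theorem g172 : ∀ j, 172 ≤ j → st j ≠ 0 → Good (st j) := bk k172 g173
theorem g171 : ∀ j, 171 ≤ j → st j ≠ 0 → Good (st j) := bk k171 g172
theorem g170 : ∀ j, 170 ≤ j → st j ≠ 0 → Good (st j) := bk k170 g171
theorem g169 : ∀ j, 169 ≤ j → st j ≠ 0 → Good (st j) := bk k169 g170
theorem g168 : ∀ j, 168 ≤ j → st j ≠ 0 → Good (st j) := bk k168 g169
theorem g167 : ∀ j, 167 ≤ j → st j ≠ 0 → Good (st j) := bk k167 g168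
theorem g166 : ∀ j, 166 ≤ j → st j ≠ 0 → Good (st j) := bk k166 g167
theorem g165 : ∀ j, 165 ≤ j → st j ≠ 0 → Good (st j) := bk k165 g166
theorem g164 : ∀ j, 164 ≤ j → st j ≠ 0 → Good (st j) := bk k164 g165
theorem g163 : ∀ j, 163 ≤ j → st j ≠ 0 → Good (st j) := bk k163 g164
theorem g162 : ∀ j, 162 ≤ j → st j ≠ 0 → Good (st j) := bk k162 g163
theorem g161 : ∀ j, 161 ≤ j → st j ≠ 0 → Good (st j) := bk k161 g162
theorem g160 : ∀ j, 160 ≤ j → st j ≠ 0 → Good (st j) := bk k160 g161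
theorem g159 : ∀ j, 159 ≤ j → st j ≠ 0 → Good (st j) := bk k159 g160
theorem g158 : ∀ j, 158 ≤ j → st j ≠ 0 → Good (st j) := bk k158 g159
theorem g157 : ∀ j, 157 ≤ j → st j ≠ 0 → Good (st j) := bk k157 g158
theorem g156 : ∀ j, 156 ≤ j → st j ≠ 0 → Good (st j) := bk k156 g157
theorem g155 : ∀ j, 155 ≤ j → st j ≠ 0 → Good (st j) := bk k155 g156
theorem g154 : ∀ j, 154 ≤ j → st j ≠ 0 → Good (st j) := bk k154 g155
theorem g153 : ∀ j, 153 ≤ j → st j ≠ 0 → Good (st j) := bk k153 g154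
theorem g152 : ∀ j, 152 ≤ j → st j ≠ 0 → Good (st j) := bk k152 g153
theorem g151 : ∀ j, 151 ≤ j → st j ≠ 0 → Good (st j) := bk k151 g152
theorem g150 : ∀ j, 150 ≤ j → st j ≠ 0 → Good (st j) := bk k150 g151
theorem g149 : ∀ j, 149 ≤ j → st j ≠ 0 → Good (st j) := bk k149 g150
theorem g148 : ∀ j, 148 ≤ j → st j ≠ 0 → Good (st j) := bk k148 g149
theorem g147 : ∀ j, 147 ≤ j → st j ≠ 0 → Good (st j) := bk k147 g148
theorem g146 : ∀ j, 146 ≤ j → st j ≠ 0 → Good (st j) := bk k146 g147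
theorem g145 : ∀ j, 145 ≤ j → st j ≠ 0 → Good (st j) := bk k145 g146
theorem g144 : ∀ j, 144 ≤ j → st j ≠ 0 → Good (st j) := bk k144 g145
theorem g143 : ∀ j, 143 ≤ j → st j ≠ 0 → Good (st j) := bk k143 g144
theorem g142 : ∀ j, 142 ≤ j → st j ≠ 0 → Good (st j) := bk k142 g143
theorem g141 : ∀ j, 141 ≤ j → st j ≠ 0 → Good (st j) := bk k141 g142
theorem g140 : ∀ j, 140 ≤ j → st j ≠ 0 → Good (st j) := bk k140 g141
theorem g139 : ∀ j, 139 ≤ j → st j ≠ 0 → Good (st j) := bk k139 g140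
theorem g138 : ∀ j, 138 ≤ j → st j ≠ 0 → Good (st j) := bk k138 g139
theorem g137 : ∀ j, 137 ≤ j → st j ≠ 0 → Good (st j) := bk k137 g138
theorem g136 : ∀ j, 136 ≤ j → st j ≠ 0 → Good (st j) := bk k136 g137
theorem g135 : ∀ j, 135 ≤ j → st j ≠ 0 → Good (st j) := bk k135 g136
theorem g134 : ∀ j, 134 ≤ j → st j ≠ 0 → Good (st j) := bk k134 g135
theorem g133 : ∀ j, 133 ≤ j → st j ≠ 0 → Good (st j) := bk k133 g134
theorem g132 : ∀ j, 132 ≤ j → st j ≠ 0 → Good (st j) := bk k132 g133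
theorem g131 : ∀ j, 131 ≤ j → st j ≠ 0 → Good (st j) := bk k131 g132
theorem g130 : ∀ j, 130 ≤ j → st j ≠ 0 → Good (st j) := bk k130 g131
theorem g129 : ∀ j, 129 ≤ j → st j ≠ 0 → Good (st j) := bk k129 g130
theorem g128 : ∀ j, 128 ≤ j → st j ≠ 0 → Good (st j) := bk k128 g129
theorem g127 : ∀ j, 127 ≤ j → st j ≠ 0 → Good (st j) := bk k127 g128
theorem g126 : ∀ j, 126 ≤ j → st j ≠ 0 → Good (st j) := bk k126 g127
theorem g125 : ∀ j, 125 ≤ j → st j ≠ 0 → Good (st j) := bk k125 g126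
theorem g124 : ∀ j, 124 ≤ j → st j ≠ 0 → Good (st j) := bk k124 g125
theorem g123 : ∀ j, 123 ≤ j → st j ≠ 0 → Good (st j) := bk k123 g124
theorem g122 : ∀ j, 122 ≤ j → st j ≠ 0 → Good (st j) := bk k122 g123
theorem g121 : ∀ j, 121 ≤ j → st j ≠ 0 → Good (st j) := bk k121 g122
theorem g120 : ∀ j, 120 ≤ j → st j ≠ 0 → Good (st j) := bk k120 g121
theorem g119 : ∀ j, 119 ≤ j → st j ≠ 0 → Good (st j) := bk k119 g120
theorem g118 : ∀ j, 118 ≤ j → st j ≠ 0 → Good (st j) := bk k118 g119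
theorem g117 : ∀ j, 117 ≤ j → st j ≠ 0 → Good (st j) := bk k117 g118
theorem g116 : ∀ j, 116 ≤ j → st j ≠ 0 → Good (st j) := bk k116 g117
theorem g115 : ∀ j, 115 ≤ j → st j ≠ 0 → Good (st j) := bk k115 g116
theorem g114 : ∀ j, 114 ≤ j → st j ≠ 0 → Good (st j) := bk k114 g115
theorem g113 : ∀ j, 113 ≤ j → st j ≠ 0 → Good (st j) := bk k113 g114
theorem g112 : ∀ j, 112 ≤ j → st j ≠ 0 → Good (st j) := bk k112 g113
theorem g111 : ∀ j, 111 ≤ j → st j ≠ 0 → Good (st j) := bk k111 g112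
theorem g110 : ∀ j, 110 ≤ j → st j ≠ 0 → Good (st j) := bk k110 g111
theorem g109 : ∀ j, 109 ≤ j → st j ≠ 0 → Good (st j) := bk k109 g110
theorem g108 : ∀ j, 108 ≤ j → st j ≠ 0 → Good (st j) := bk k108 g109
theorem g107 : ∀ j, 107 ≤ j → st j ≠ 0 → Good (st j) := bk k107 g108
theorem g106 : ∀ j, 106 ≤ j → st j ≠ 0 → Good (st j) := bk k106 g107
theorem g105 : ∀ j, 105 ≤ j → st j ≠ 0 → Good (st j) := bk k105 g106
theorem g104 : ∀ j, 104 ≤ j → st j ≠ 0 → Good (st j) := bk k104 g105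
theorem g103 : ∀ j, 103 ≤ j → st j ≠ 0 → Good (st j) := bk k103 g104
theorem g102 : ∀ j, 102 ≤ j → st j ≠ 0 → Good (st j) := bk k102 g103
theorem g101 : ∀ j, 101 ≤ j → st j ≠ 0 → Good (st j) := bk k101 g102
theorem g100 : ∀ j, 100 ≤ j → st j ≠ 0 → Good (st j) := bk k100 g101
theorem g99 : ∀ j, 99 ≤ j → st j ≠ 0 → Good (st j) := bk k99 g100
theorem g98 : ∀ j, 98 ≤ j → st j ≠ 0 → Good (st j) := bk k98 g99
theorem g97 : ∀ j, 97 ≤ j → st j ≠ 0 → Good (st j) := bk k97 g98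
theorem g96 : ∀ j, 96 ≤ j → st j ≠ 0 → Good (st j) := bk k96 g97
theorem g95 : ∀ j, 95 ≤ j → st j ≠ 0 → Good (st j) := bk k95 g96
theorem g94 : ∀ j, 94 ≤ j → st j ≠ 0 → Good (st j) := bk k94 g95
theorem g93 : ∀ j, 93 ≤ j → st j ≠ 0 → Good (st j) := bk k93 g94
theorem g92 : ∀ j, 92 ≤ j → st j ≠ 0 → Good (st j) := bk k92 g93
theorem g91 : ∀ j, 91 ≤ j → st j ≠ 0 → Good (st j) := bk k91 g92
theorem g90 : ∀ j, 90 ≤ j → st j ≠ 0 → Good (st j) := bk k90 g91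
theorem g89 : ∀ j, 89 ≤ j → st j ≠ 0 → Good (st j) := bk k89 g90
theorem g88 : ∀ j, 88 ≤ j → st j ≠ 0 → Good (st j) := bk k88 g89
theorem g87 : ∀ j, 87 ≤ j → st j ≠ 0 → Good (st j) := bk k87 g88
theorem g86 : ∀ j, 86 ≤ j → st j ≠ 0 → Good (st j) := bk k86 g87
theorem g85 : ∀ j, 85 ≤ j → st j ≠ 0 → Good (st j) := bk k85 g86
theorem g84 : ∀ j, 84 ≤ j → st j ≠ 0 → Good (st j) := bk k84 g85
theorem g83 : ∀ j, 83 ≤ j → st j ≠ 0 → Good (st j) := bk k83 g84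
theorem g82 : ∀ j, 82 ≤ j → st j ≠ 0 → Good (st j) := bk k82 g83
theorem g81 : ∀ j, 81 ≤ j → st j ≠ 0 → Good (st j) := bk k81 g82
theorem g80 : ∀ j, 80 ≤ j → st j ≠ 0 → Good (st j) := bk k80 g81
theorem g79 : ∀ j, 79 ≤ j → st j ≠ 0 → Good (st j) := bk k79 g80
theorem g78 : ∀ j, 78 ≤ j → st j ≠ 0 → Good (st j) := bk k78 g79
theorem g77 : ∀ j, 77 ≤ j → st j ≠ 0 → Good (st j) := bk k77 g78
theorem g76 : ∀ j, 76 ≤ j → st j ≠ 0 → Good (st j) := bk k76 g77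
theorem g75 : ∀ j, 75 ≤ j → st j ≠ 0 → Good (st j) := bk k75 g76
theorem g74 : ∀ j, 74 ≤ j → st j ≠ 0 → Good (st j) := bk k74 g75
theorem g73 : ∀ j, 73 ≤ j → st j ≠ 0 → Good (st j) := bk k73 g74
theorem g72 : ∀ j, 72 ≤ j → st j ≠ 0 → Good (st j) := bk k72 g73
theorem g71 : ∀ j, 71 ≤ j → st j ≠ 0 → Good (st j) := bk k71 g72
theorem g70 : ∀ j, 70 ≤ j → st j ≠ 0 → Good (st j) := bk k70 g71
theorem g69 : ∀ j, 69 ≤ j → st j ≠ 0 → Good (st j) := bk k69 g70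
theorem g68 : ∀ j, 68 ≤ j → st j ≠ 0 → Good (st j) := bk k68 g69
theorem g67 : ∀ j, 67 ≤ j → st j ≠ 0 → Good (st j) := bk k67 g68
theorem g66 : ∀ j, 66 ≤ j → st j ≠ 0 → Good (st j) := bk k66 g67
theorem g65 : ∀ j, 65 ≤ j → st j ≠ 0 → Good (st j) := bk k65 g66
theorem g64 : ∀ j, 64 ≤ j → st j ≠ 0 → Good (st j) := bk k64 g65
theorem g63 : ∀ j, 63 ≤ j → st j ≠ 0 → Good (st j) := bk k63 g64
theorem g62 : ∀ j, 62 ≤ j → st j ≠ 0 → Good (st j) := bk k62 g63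
theorem g61 : ∀ j, 61 ≤ j → st j ≠ 0 → Good (st j) := bk k61 g62
theorem g60 : ∀ j, 60 ≤ j → st j ≠ 0 → Good (st j) := bk k60 g61
theorem g59 : ∀ j, 59 ≤ j → st j ≠ 0 → Good (st j) := bk k59 g60
theorem g58 : ∀ j, 58 ≤ j → st j ≠ 0 → Good (st j) := bk k58 g59
theorem g57 : ∀ j, 57 ≤ j → st j ≠ 0 → Good (st j) := bk k57 g58
theorem g56 : ∀ j, 56 ≤ j → st j ≠ 0 → Good (st j) := bk k56 g57
theorem g55 : ∀ j, 55 ≤ j → st j ≠ 0 → Good (st j) := bk k55 g56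
theorem g54 : ∀ j, 54 ≤ j → st j ≠ 0 → Good (st j) := bk k54 g55
theorem g53 : ∀ j, 53 ≤ j → st j ≠ 0 → Good (st j) := bk k53 g54
theorem g52 : ∀ j, 52 ≤ j → st j ≠ 0 → Good (st j) := bk k52 g53
theorem g51 : ∀ j, 51 ≤ j → st j ≠ 0 → Good (st j) := bk k51 g52
theorem g50 : ∀ j, 50 ≤ j → st j ≠ 0 → Good (st j) := bk k50 g51
theorem g49 : ∀ j, 49 ≤ j → st j ≠ 0 → Good (st j) := bk k49 g50
theorem g48 : ∀ j, 48 ≤ j → st j ≠ 0 → Good (st j) := bk k48 g49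
theorem g47 : ∀ j, 47 ≤ j → st j ≠ 0 → Good (st j) := bk k47 g48
theorem g46 : ∀ j, 46 ≤ j → st j ≠ 0 → Good (st j) := bk k46 g47
theorem g45 : ∀ j, 45 ≤ j → st j ≠ 0 → Good (st j) := bk k45 g46
theorem g44 : ∀ j, 44 ≤ j → st j ≠ 0 → Good (st j) := bk k44 g45
theorem g43 : ∀ j, 43 ≤ j → st j ≠ 0 → Good (st j) := bk k43 g44
theorem g42 : ∀ j, 42 ≤ j → st j ≠ 0 → Good (st j) := bk k42 g43
theorem g41 : ∀ j, 41 ≤ j → st j ≠ 0 → Good (st j) := bk k41 g42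
theorem g40 : ∀ j, 40 ≤ j → st j ≠ 0 → Good (st j) := bk k40 g41
theorem g39 : ∀ j, 39 ≤ j → st j ≠ 0 → Good (st j) := bk k39 g40
theorem g38 : ∀ j, 38 ≤ j → st j ≠ 0 → Good (st j) := bk k38 g39
theorem g37 : ∀ j, 37 ≤ j → st j ≠ 0 → Good (st j) := bk k37 g38
theorem g36 : ∀ j, 36 ≤ j → st j ≠ 0 → Good (st j) := bk k36 g37
theorem g35 : ∀ j, 35 ≤ j → st j ≠ 0 → Good (st j) := bk k35 g36
theorem g34 : ∀ j, 34 ≤ j → st j ≠ 0 → Good (st j) := bk k34 g35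
theorem g33 : ∀ j, 33 ≤ j → st j ≠ 0 → Good (st j) := bk k33 g34
theorem g32 : ∀ j, 32 ≤ j → st j ≠ 0 → Good (st j) := bk k32 g33
theorem g31 : ∀ j, 31 ≤ j → st j ≠ 0 → Good (st j) := bk k31 g32
theorem g30 : ∀ j, 30 ≤ j → st j ≠ 0 → Good (st j) := bk k30 g31
theorem g29 : ∀ j, 29 ≤ j → st j ≠ 0 → Good (st j) := bk k29 g30
theorem g28 : ∀ j, 28 ≤ j → st j ≠ 0 → Good (st j) := bk k28 g29
theorem g27 : ∀ j, 27 ≤ j → st j ≠ 0 → Good (st j) := bk k27 g28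
theorem g26 : ∀ j, 26 ≤ j → st j ≠ 0 → Good (st j) := bk k26 g27
theorem g25 : ∀ j, 25 ≤ j → st j ≠ 0 → Good (st j) := bk k25 g26
theorem g24 : ∀ j, 24 ≤ j → st j ≠ 0 → Good (st j) := bk k24 g25
theorem g23 : ∀ j, 23 ≤ j → st j ≠ 0 → Good (st j) := bk k23 g24
theorem g22 : ∀ j, 22 ≤ j → st j ≠ 0 → Good (st j) := bk k22 g23
theorem g21 : ∀ j, 21 ≤ j → st j ≠ 0 → Good (st j) := bk k21 g22
theorem g20 : ∀ j, 20 ≤ j → st j ≠ 0 → Good (st j) := bk k20 g21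
theorem g19 : ∀ j, 19 ≤ j → st j ≠ 0 → Good (st j) := bk k19 g20
theorem g18 : ∀ j, 18 ≤ j → st j ≠ 0 → Good (st j) := bk k18 g19
theorem g17 : ∀ j, 17 ≤ j → st j ≠ 0 → Good (st j) := bk k17 g18
theorem g16 : ∀ j, 16 ≤ j → st j ≠ 0 → Good (st j) := bk k16 g17
theorem g15 : ∀ j, 15 ≤ j → st j ≠ 0 → Good (st j) := bk k15 g16
theorem g14 : ∀ j, 14 ≤ j → st j ≠ 0 → Good (st j) := bk k14 g15
theorem g13 : ∀ j, 13 ≤ j → st j ≠ 0 → Good (st j) := bk k13 g14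
theorem g12 : ∀ j, 12 ≤ j → st j ≠ 0 → Good (st j) := bk k12 g13
theorem g11 : ∀ j, 11 ≤ j → st j ≠ 0 → Good (st j) := bk k11 g12
theorem g10 : ∀ j, 10 ≤ j → st j ≠ 0 → Good (st j) := bk k10 g11
theorem g9 : ∀ j, 9 ≤ j → st j ≠ 0 → Good (st j) := bk k9 g10
theorem g8 : ∀ j, 8 ≤ j → st j ≠ 0 → Good (st j) := bk k8 g9
theorem g7 : ∀ j, 7 ≤ j → st j ≠ 0 → Good (st j) := bk k7 g8
theorem g6 : ∀ j, 6 ≤ j → st j ≠ 0 → Good (st j) := bk k6 g7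
theorem g5 : ∀ j, 5 ≤ j → st j ≠ 0 → Good (st j) := bk k5 g6
theorem g4 : ∀ j, 4 ≤ j → st j ≠ 0 → Good (st j) := bk k4 g5
theorem g3 : ∀ j, 3 ≤ j → st j ≠ 0 → Good (st j) := bk k3 g4
theorem g2 : ∀ j, 2 ≤ j → st j ≠ 0 → Good (st j) := bk k2 g3
theorem g1 : ∀ j, 1 ≤ j → st j ≠ 0 → Good (st j) := bk k1 g2
theorem g0 : ∀ j, 0 ≤ j → st j ≠ 0 → Good (st j) := bk k0 g1

/-- the certificate theorem -/
theorem cert : Cert :=
  cert_of_root (g0 0 le_rfl (by decide +kernel)) (by decide +kernel) (by decide +kernel) (by decide +kernel)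
    (by decide +kernel) (by decide +kernel) (by decide +kernel) (by decide +kernel) (by decide +kernel)
    (by decide +kernel) (by decide +kernel) (by decide +kernel)

end Pool.Agent.H337_stamp.Check
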